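import Mathlib

set_option autoImplicit false

/-!
Project UM5 (helper97), job DETQ, part 1: integrals (helper149).
-/

namespace Pool.Agent.Q149.UM

open Filter Metric Set MeasureTheory

theorem sum_quart (N : ℕ) : ∑ n ∈ Finset.range N, 1 / (1 + (n : ℝ)) ^ 4 ≤ 3 := by
  have key : ∑ n ∈ Finset.range N, 1 / (1 + (n : ℝ)) ^ 4 ≤ 3 - 2 / ((N : ℝ) + 1) := by
    induction N with
    | zero => norm_num
    | succ N ih =>
      rw [Finset.sum_range_succ]
      have hN : (0 : ℝ) ≤ N := N.cast_nonneg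
      have h1 : 1 / (1 + (N : ℝ)) ^ 4 ≤ 2 / (N + 1) - 2 / (((N + 1 : ℕ) : ℝ) + 1) := by
        push_cast
        have e : 2 / ((N : ℝ) + 1) - 2 / ((N : ℝ) + 1 + 1) = 2 / ((N + 1) * (N + 2)) := by
          field_simp
          ring
        rw [e, div_le_div_iff₀ (by positivity) (by positivity)]
        nlinarith [pow_nonneg hN 2, pow_nonneg hN 3, pow_nonneg hN 4]
      linarith
  have : (0 : ℝ) ≤ 2 / (N + 1) := by positivity
  linarith

theorem tail_sum {f k : ℝ → ℝ} {B c b : ℝ} {N : ℕ}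
    (hf : ∀ n < N, IntervalIntegrable f volume n (n + 1))
    (hB : ∀ n < N, ∫ y in (n : ℝ)..(n + 1), |f y| ≤ B) (hk : Continuous k)
    (hkc : ∀ y, 1 / 8 ≤ y → |k y| ≤ c / (1 + y) ^ 4) (hb1 : 1 / 8 ≤ b) (hb : b ≤ N) :
    |∫ y in (1 / 8)..b, k y * f y| ≤ 3 * c * B := by
  have hN : 0 < N := by
    rcases Nat.eq_zero_or_pos N with h | h
    · subst h
      norm_num at hb
      linarith
    · exact h
  have hB0 : 0 ≤ B := le_trans (intervalIntegral.integral_nonneg (by norm_num)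
    (fun y _ => abs_nonneg _)) (hB 0 hN)
  have hc0 : 0 ≤ c := by
    have h := (abs_nonneg _).trans (hkc (1 / 8) le_rfl)
    by_contra hcon
    push Not at hcon
    have : c / (1 + 1 / 8 : ℝ) ^ 4 < 0 := div_neg_of_neg_of_pos hcon (by norm_num)
    linarith
  have hfN : IntervalIntegrable f volume 0 N := by
    have h := IntervalIntegrable.trans_iterate (a := fun n : ℕ => (n : ℝ)) (n := N)
      (μ := volume) (f := f) (fun n hn => by
        have := hf n hn
        push_cast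
        exact this)
    simpa using h
  have hw : ContinuousOn (fun y : ℝ => c / (1 + y) ^ 4) (Icc 0 N) := by
    apply ContinuousOn.div (by fun_prop) (by fun_prop)
    intro x hx
    have : 0 < 1 + x := by linarith [hx.1]
    positivity
  have hNr : (0 : ℝ) ≤ N := N.cast_nonneg
  have hg : IntervalIntegrable (fun y => c / (1 + y) ^ 4 * |f y|) volume 0 N := by
    apply hfN.abs.continuousOn_mul
    rw [uIcc_of_le hNr]
    exact hw
  have hsub : uIcc (1 / 8) b ⊆ uIcc (0 : ℝ) N := by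
    rw [uIcc_of_le hb1, uIcc_of_le hNr]
    exact Icc_subset_Icc (by norm_num) hb
  have hkf : IntervalIntegrable (fun y => k y * f y) volume (1 / 8) b :=
    (hfN.mono_set hsub).continuousOn_mul hk.continuousOn
  have h1 : |∫ y in (1 / 8)..b, k y * f y| ≤ ∫ y in (1 / 8)..b, c / (1 + y) ^ 4 * |f y| := by
    refine (intervalIntegral.abs_integral_le_integral_abs hb1).trans ?_
    refine intervalIntegral.integral_mono_on hb1 hkf.abs (hg.mono_set hsub) fun y hy => ?_
    rw [abs_mul]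
    exact mul_le_mul_of_nonneg_right (hkc y hy.1) (abs_nonneg _)
  have h2 : ∫ y in (1 / 8)..b, c / (1 + y) ^ 4 * |f y| ≤ ∫ y in (0 : ℝ)..N,
      c / (1 + y) ^ 4 * |f y| := by
    refine intervalIntegral.integral_mono_interval (by norm_num) hb1 hb ?_ hg
    refine (ae_restrict_mem measurableSet_Ioc).mono fun y hy => ?_
    have : 0 < 1 + y := by linarith [hy.1]
    exact mul_nonneg (by positivity) (abs_nonneg _)
  have h3 : ∫ y in (0 : ℝ)..N, c / (1 + y) ^ 4 * |f y|
      = ∑ n ∈ Finset.range N, ∫ y in (n : ℝ)..((n + 1 : ℕ) : ℝ), c / (1 + y) ^ 4 * |f y| := by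
    have h := intervalIntegral.sum_integral_adjacent_intervals (μ := volume)
      (f := fun y => c / (1 + y) ^ 4 * |f y|) (a := fun n : ℕ => (n : ℝ)) (n := N)
      (fun n hn => by
        apply hg.mono_set
        have h1 : ((n : ℝ) + 1) ≤ N := by exact_mod_cast hn
        have h0 : (0 : ℝ) ≤ n := n.cast_nonneg
        rw [uIcc_of_le hNr, uIcc_of_le (by push_cast; linarith)]
        exact Icc_subset_Icc h0 (by push_cast; linarith))
    simpa using h.symm
  have h4 : ∀ n ∈ Finset.range N, ∫ y in (n : ℝ)..((n + 1 : ℕ) : ℝ), c / (1 + y) ^ 4 * |f y|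
      ≤ c * B * (1 / (1 + (n : ℝ)) ^ 4) := by
    intro n hn
    rw [Finset.mem_range] at hn
    have h0 : (0 : ℝ) ≤ n := n.cast_nonneg
    push_cast
    have hfi := hf n hn
    have hmono : ∫ y in (n : ℝ)..(n + 1), c / (1 + y) ^ 4 * |f y|
        ≤ ∫ y in (n : ℝ)..(n + 1), c / (1 + n) ^ 4 * |f y| := by
      refine intervalIntegral.integral_mono_on (by linarith) ?_ (hfi.abs.const_mul _)
        fun y hy => ?_
      · apply hfi.abs.continuousOn_mul
        rw [uIcc_of_le (by linarith)]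
        apply ContinuousOn.div (by fun_prop) (by fun_prop)
        intro x hx
        have : 0 < 1 + x := by linarith [hx.1]
        positivity
      · have hpos : 0 < 1 + (n : ℝ) := by linarith
        have : c / (1 + y) ^ 4 ≤ c / (1 + n) ^ 4 := by
          apply div_le_div_of_nonneg_left hc0 (by positivity)
          exact pow_le_pow_left₀ hpos.le (by linarith [hy.1]) 4
        exact mul_le_mul_of_nonneg_right this (abs_nonneg _)
    refine hmono.trans ?_
    rw [intervalIntegral.integral_const_mul]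
    have hq : 0 ≤ c / (1 + (n : ℝ)) ^ 4 := by positivity
    calc c / (1 + (n : ℝ)) ^ 4 * ∫ y in (n : ℝ)..(n + 1), |f y|
        ≤ c / (1 + (n : ℝ)) ^ 4 * B := mul_le_mul_of_nonneg_left (hB n hn) hq
      _ = c * B * (1 / (1 + (n : ℝ)) ^ 4) := by ring
  refine h1.trans (h2.trans ?_)
  rw [h3]
  refine (Finset.sum_le_sum h4).trans ?_
  rw [← Finset.mul_sum]
  calc c * B * ∑ n ∈ Finset.range N, 1 / (1 + (n : ℝ)) ^ 4 ≤ c * B * 3 :=
        mul_le_mul_of_nonneg_left (sum_quart N) (by positivity)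
    _ = 3 * c * B := by ring

theorem int_quart (r : ℝ) (hr : 1 < r) : Integrable (fun y : ℝ => (1 + |y|) ^ (-r)) := by
  have h := integrable_one_add_norm (E := ℝ) (μ := volume) (r := r) (by simpa using hr)
  simpa [Real.norm_eq_abs] using h

theorem int_pow4 : Integrable (fun y : ℝ => 1 / (1 + |y|) ^ 4) := by
  refine (int_quart 4 (by norm_num)).congr (Eventually.of_forall fun y => ?_)
  have : 0 < 1 + |y| := by positivity
  show (1 + |y|) ^ (-(4 : ℝ)) = 1 / (1 + |y|) ^ 4
  rw [Real.rpow_neg this.le, one_div]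
  norm_cast

theorem int_pow3 : Integrable (fun y : ℝ => 1 / (1 + |y|) ^ 3) := by
  refine (int_quart 3 (by norm_num)).congr (Eventually.of_forall fun y => ?_)
  have : 0 < 1 + |y| := by positivity
  show (1 + |y|) ^ (-(3 : ℝ)) = 1 / (1 + |y|) ^ 3
  rw [Real.rpow_neg this.le, one_div]
  norm_cast

theorem int_g : Integrable (fun z : ℝ => (|Real.log z| + |z|) / (1 + |z|) ^ 4) := by
  have h1 : IntegrableOn (fun z : ℝ => |Real.log z|) (Icc (-1) 1) := by
    have h : IntervalIntegrable (fun x => |Real.log x|) volume (-1) 1 :=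
      intervalIntegral.intervalIntegrable_log'.abs
    rw [intervalIntegrable_iff_integrableOn_Icc_of_le (by norm_num)] at h
    exact h
  have h2 := (integrable_indicator_iff measurableSet_Icc).2 h1
  refine (h2.add (int_pow3.const_mul 2)).mono' ?_ (Eventually.of_forall fun z => ?_)
  · apply Measurable.aestronglyMeasurable
    fun_prop
  · have hp : 0 < 1 + |z| := by positivity
    have hz : 0 ≤ |z| := abs_nonneg z
    rw [Real.norm_eq_abs, abs_of_nonneg (by positivity)]
    simp only [Pi.add_apply]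
    by_cases hz1 : z ∈ Icc (-1 : ℝ) 1
    · rw [indicator_of_mem hz1]
      rw [add_div]
      have e1 : |Real.log z| / (1 + |z|) ^ 4 ≤ |Real.log z| :=
        div_le_self (abs_nonneg _) (one_le_pow₀ (by linarith))
      have e2 : |z| / (1 + |z|) ^ 4 ≤ 2 * (1 / (1 + |z|) ^ 3) := by
        rw [mul_one_div, div_le_div_iff₀ (by positivity) (by positivity)]
        have : 0 ≤ (1 + |z|) ^ 3 := by positivity
        nlinarith [mul_nonneg hz this]
      linarith
    · rw [indicator_of_notMem hz1, zero_add]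
      have hz2 : 1 ≤ |z| := by
        by_contra hcon
        push Not at hcon
        exact hz1 ⟨(abs_lt.1 hcon).1.le, (abs_lt.1 hcon).2.le⟩
      have e1 : |Real.log z| ≤ |z| := by
        rw [← Real.log_abs, abs_of_nonneg (Real.log_nonneg hz2)]
        exact (Real.log_le_sub_one_of_pos (by linarith)).trans (by linarith)
      rw [mul_one_div, div_le_div_iff₀ (by positivity) (by positivity)]
      have h3 : 0 ≤ (1 + |z|) ^ 3 := by positivity
      calc (|Real.log z| + |z|) * (1 + |z|) ^ 3 ≤ (|z| + |z|) * (1 + |z|) ^ 3 := by gcongr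
        _ ≤ 2 * (1 + |z|) ^ 4 := by nlinarith [mul_nonneg hz h3]

theorem log_int : ∃ K : ℝ, 0 ≤ K ∧ ∀ c : ℝ, |c| ≤ 1 →
    Integrable (fun y : ℝ => (|Real.log (c + y)| + |c + y|) / (1 + |y|) ^ 4) ∧
    ∫ y : ℝ, (|Real.log (c + y)| + |c + y|) / (1 + |y|) ^ 4 ≤ K := by
  refine ⟨16 * ∫ z : ℝ, (|Real.log z| + |z|) / (1 + |z|) ^ 4,
    mul_nonneg (by norm_num) (integral_nonneg fun z => by positivity), fun c hc => ?_⟩
  have hg : Integrable (fun y : ℝ => 16 * ((|Real.log (c + y)| + |c + y|) / (1 + |c + y|) ^ 4)) :=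
    (int_g.comp_add_left c).const_mul 16
  have hle : ∀ y : ℝ, (|Real.log (c + y)| + |c + y|) / (1 + |y|) ^ 4
      ≤ 16 * ((|Real.log (c + y)| + |c + y|) / (1 + |c + y|) ^ 4) := by
    intro y
    rw [← mul_div_assoc, div_le_div_iff₀ (by positivity) (by positivity)]
    have h1 : 1 + |c + y| ≤ 2 * (1 + |y|) := by
      have := abs_add_le c y
      have := abs_nonneg y
      linarith
    have h2 : (1 + |c + y|) ^ 4 ≤ 16 * (1 + |y|) ^ 4 := by
      have := pow_le_pow_left₀ (by positivity) h1 4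
      linarith [this, mul_pow 2 (1 + |y|) 4, show (2 : ℝ) ^ 4 = 16 by norm_num]
    have h3 : 0 ≤ |Real.log (c + y)| + |c + y| := by positivity
    nlinarith [mul_le_mul_of_nonneg_left h2 h3]
  have hi : Integrable (fun y : ℝ => (|Real.log (c + y)| + |c + y|) / (1 + |y|) ^ 4) := by
    refine hg.mono' ?_ (Eventually.of_forall fun y => ?_)
    · apply Measurable.aestronglyMeasurable
      fun_prop
    · rw [Real.norm_eq_abs, abs_of_nonneg (by positivity)]
      exact hle y
  refine ⟨hi, (integral_mono hi hg hle).trans ?_⟩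
  rw [integral_const_mul, integral_add_left_eq_self (fun z : ℝ => (|Real.log z| + |z|) /
    (1 + |z|) ^ 4) c]

/-- the bound of the logarithms -/
theorem ell_bd {w v : ℝ} (hw : w ≠ 0) (hv : |v| ≤ 1 / 2) :
    |Real.log (w ^ 2 + v ^ 2) / 2| ≤ |Real.log w| + |w| := by
  have hw2 : 0 < |w| := abs_pos.2 hw
  have hw3 : 0 < w ^ 2 := by positivity
  have h1 : Real.log (w ^ 2) ≤ Real.log (w ^ 2 + v ^ 2) :=
    Real.log_le_log hw3 (by nlinarith [sq_nonneg v])
  have h2 : Real.log (w ^ 2 + v ^ 2) ≤ Real.log ((1 + |w|) ^ 2) := by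
    apply Real.log_le_log (by positivity)
    have h3 : v ^ 2 ≤ 1 / 4 := by
      rw [← sq_abs v]
      nlinarith [abs_nonneg v]
    have h4 : w ^ 2 = |w| ^ 2 := (sq_abs w).symm
    nlinarith
  rw [Real.log_pow] at h1 h2
  push_cast at h1 h2
  have h5 : Real.log (1 + |w|) ≤ |w| := (Real.log_le_sub_one_of_pos (by positivity)).trans
    (by linarith)
  have h6 := neg_abs_le (Real.log w)
  rw [abs_le]
  constructor
  · linarith
  · have := abs_nonneg (Real.log w)
    linarith

theorem core {κ Z : ℝ → ℝ} {c M B E F W a b K₂ K₃ : ℝ} {N : ℕ} {ι : Type*} {A : Finset ι}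
    {m u v : ι → ℝ} (hc : Continuous κ) (h0 : ∀ y, 0 ≤ κ y) (hi : Integrable κ)
    (h1 : ∫ y, κ y = 1) (hk : ∀ y, 1 / 8 ≤ |y| → κ y ≤ c / (1 + |y|) ^ 4)
    (hM : Integrable (fun y => κ y * |y|)) (hM' : ∫ y, κ y * |y| ≤ M)
    (ha : a ≤ -(1 / 8)) (hb : 1 / 8 ≤ b) (haN : -(N : ℝ) ≤ a) (hbN : b ≤ N)
    (hZ : ∀ n < N, IntervalIntegrable Z volume n (n + 1) ∧ ∫ y in (n : ℝ)..(n + 1), |Z y| ≤ B)
    (hZ' : ∀ n < N, IntervalIntegrable (fun y => Z (-y)) volume n (n + 1) ∧
      ∫ y in (n : ℝ)..(n + 1), |Z (-y)| ≤ B)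
    (hm : ∀ s ∈ A, 0 ≤ m s) (hW : ∑ s ∈ A, m s ≤ W) (hu : ∀ s ∈ A, |u s| ≤ 1)
    (hv : ∀ s ∈ A, |v s| ≤ 1 / 2)
    (hs : ∀ s ∈ A, Integrable (fun y => κ y * (Real.log (u s ^ 2 + v s ^ 2) / 2
      - Real.log ((u s + y) ^ 2 + v s ^ 2) / 2)))
    (hE : 0 ≤ E)
    (hR : ∀ᵐ y : ℝ, |y| ≤ 1 / 8 → |Z 0 - Z y - ∑ s ∈ A, m s * (Real.log (u s ^ 2 + v s ^ 2) / 2
      - Real.log ((u s + y) ^ 2 + v s ^ 2) / 2)| ≤ E * |y|)
    (hF : |Z 0 - ∑ s ∈ A, m s * (Real.log (u s ^ 2 + v s ^ 2) / 2)| ≤ F)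
    (hK₂ : ∀ c : ℝ, |c| ≤ 1 →
      Integrable (fun y : ℝ => (|Real.log (c + y)| + |c + y|) / (1 + |y|) ^ 4) ∧
      ∫ y : ℝ, (|Real.log (c + y)| + |c + y|) / (1 + |y|) ^ 4 ≤ K₂)
    (hK₃ : ∫ y : ℝ, 1 / (1 + |y|) ^ 4 ≤ K₃) (hc0 : 0 ≤ c) :
    |Z 0 - (∫ y in a..b, κ y * Z y) - ∑ s ∈ A, m s * ∫ y, κ y *
      (Real.log (u s ^ 2 + v s ^ 2) / 2 - Real.log ((u s + y) ^ 2 + v s ^ 2) / 2)|
      ≤ E * M + c * K₃ * F + 6 * c * B + W * (c * K₂) := by
  -- integrability of `κ Z`
  have hNr : (0 : ℝ) ≤ N := N.cast_nonneg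
  have hZN : IntervalIntegrable Z volume 0 N := by
    have h := IntervalIntegrable.trans_iterate (a := fun n : ℕ => (n : ℝ)) (n := N)
      (μ := volume) (f := Z) (fun n hn => by
        have := (hZ n hn).1
        push_cast
        exact this)
    simpa using h
  have hZN' : IntervalIntegrable Z volume (-N) 0 := by
    have h := IntervalIntegrable.trans_iterate (a := fun n : ℕ => (n : ℝ)) (n := N)
      (μ := volume) (f := fun y => Z (-y)) (fun n hn => by
        have := (hZ' n hn).1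
        push_cast
        exact this)
    have h2 : IntervalIntegrable (fun y => Z (-y)) volume 0 N := by simpa using h
    have h3 := (IntervalIntegrable.iff_comp_neg (f := Z) (a := 0) (b := -(N : ℝ))).2
      (by simpa using h2)
    exact h3.symm
  have hZall : IntervalIntegrable Z volume (-N) N := hZN'.trans hZN
  have hkZ : IntervalIntegrable (fun y => κ y * Z y) volume (-N) N :=
    hZall.continuousOn_mul hc.continuousOn
  have hsub : ∀ p q : ℝ, p ≤ q → -(N : ℝ) ≤ p → q ≤ N →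
      IntervalIntegrable (fun y => κ y * Z y) volume p q := by
    intro p q hpq hp hq
    apply hkZ.mono_set
    rw [uIcc_of_le hpq, uIcc_of_le (by linarith)]
    exact Icc_subset_Icc hp hq
  have hN1 : (1 : ℝ) / 8 ≤ N := hb.trans hbN
  -- the tails
  have hB0 : |∫ y in (1 / 8)..b, κ y * Z y| ≤ 3 * c * B :=
    tail_sum (fun n hn => (hZ n hn).1) (fun n hn => (hZ n hn).2) hc
      (fun y hy => by
        have hy0 : |y| = y := abs_of_nonneg (by linarith)
        rw [abs_of_nonneg (h0 y)]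
        have := hk y (by rw [hy0]; exact hy)
        rwa [hy0] at this) hb hbN
  have hA0 : |∫ y in a..(-(1 / 8)), κ y * Z y| ≤ 3 * c * B := by
    have h := tail_sum (f := fun y => Z (-y)) (k := fun y => κ (-y)) (c := c) (b := -a) (N := N)
      (fun n hn => (hZ' n hn).1) (fun n hn => (hZ' n hn).2) (by fun_prop)
      (fun y hy => by
        have hy0 : |-y| = y := by rw [abs_neg]; exact abs_of_nonneg (by linarith)
        rw [abs_of_nonneg (h0 _)]
        have := hk (-y) (by rw [hy0]; exact hy)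
        rwa [hy0] at this) (by linarith) (by linarith)
    have e : ∫ y in (1 / 8)..(-a), κ (-y) * Z (-y) = ∫ y in a..(-(1 / 8)), κ y * Z y := by
      rw [intervalIntegral.integral_comp_neg (fun y => κ y * Z y)]
      norm_num
    rw [← e]
    exact h
  -- splitting
  have hsplit : ∫ y in a..b, κ y * Z y = (∫ y in a..(-(1 / 8)), κ y * Z y) +
      (∫ y in (-(1 / 8))..(1 / 8), κ y * Z y) + ∫ y in (1 / 8)..b, κ y * Z y := by
    rw [intervalIntegral.integral_add_adjacent_intervals (hsub _ _ ha haN (by linarith))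
      (hsub _ _ (by norm_num) (by linarith) hN1),
      intervalIntegral.integral_add_adjacent_intervals (hsub _ _ (by linarith) haN hN1)
      (hsub _ _ hb (by linarith) hbN)]
  -- the part outside
  set J : Set ℝ := Ioc (-(1 / 8)) (1 / 8) with hJ
  have hJm : MeasurableSet J := measurableSet_Ioc
  have hout : ∀ y ∈ Jᶜ, 1 / 8 ≤ |y| := by
    intro y hy
    by_contra hcon
    push Not at hcon
    rw [abs_lt] at hcon
    exact hy ⟨hcon.1, hcon.2.le⟩
  have hin : ∀ y ∈ J, |y| ≤ 1 / 8 := by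
    intro y hy
    rw [abs_le]
    exact ⟨hy.1.le, hy.2⟩
  set τ : ℝ := ∫ y in Jᶜ, κ y with hτ
  have hτ0 : 0 ≤ τ := setIntegral_nonneg hJm.compl fun y _ => h0 y
  have hτ1 : (∫ y in J, κ y) + τ = 1 := by
    rw [hτ, integral_add_compl hJm hi, h1]
  have hτc : τ ≤ c * K₃ := by
    calc τ ≤ ∫ y in Jᶜ, c * (1 / (1 + |y|) ^ 4) := by
          refine setIntegral_mono_on hi.integrableOn (int_pow4.const_mul c).integrableOn
            hJm.compl fun y hy => ?_
          rw [mul_one_div]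
          exact hk y (hout y hy)
      _ ≤ ∫ y, c * (1 / (1 + |y|) ^ 4) :=
          setIntegral_le_integral (int_pow4.const_mul c)
            (Eventually.of_forall fun y => by positivity)
      _ ≤ c * K₃ := by
          rw [integral_const_mul]
          exact mul_le_mul_of_nonneg_left hK₃ hc0
  -- the functions of the zeros
  have hl : ∀ s ∈ A, Integrable (fun y => κ y * (Real.log ((u s + y) ^ 2 + v s ^ 2) / 2)) := by
    intro s hsA
    have h := (hi.mul_const (Real.log (u s ^ 2 + v s ^ 2) / 2)).sub (hs s hsA)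
    refine h.congr (Eventually.of_forall fun y => ?_)
    simp only [Pi.sub_apply]
    ring
  have he : ∀ s ∈ A, |∫ y in Jᶜ, κ y * (Real.log ((u s + y) ^ 2 + v s ^ 2) / 2)| ≤ c * K₂ := by
    intro s hsA
    obtain ⟨i1, i2⟩ := hK₂ (u s) (hu s hsA)
    calc |∫ y in Jᶜ, κ y * (Real.log ((u s + y) ^ 2 + v s ^ 2) / 2)|
        ≤ ∫ y in Jᶜ, |κ y * (Real.log ((u s + y) ^ 2 + v s ^ 2) / 2)| :=
          abs_integral_le_integral_abs
      _ ≤ ∫ y in Jᶜ, c * ((|Real.log (u s + y)| + |u s + y|) / (1 + |y|) ^ 4) := by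
          refine setIntegral_mono_on_ae (hl s hsA).abs.integrableOn
            (i1.const_mul c).integrableOn hJm.compl ?_
          have hne : ∀ᵐ y : ℝ, y ≠ -u s := by
            simp [ae_iff]
          filter_upwards [hne] with y hy hyJ
          have hw : u s + y ≠ 0 := fun h => hy (by linarith)
          rw [abs_mul, abs_of_nonneg (h0 y)]
          calc κ y * |Real.log ((u s + y) ^ 2 + v s ^ 2) / 2|
              ≤ (c / (1 + |y|) ^ 4) * (|Real.log (u s + y)| + |u s + y|) :=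
                mul_le_mul (hk y (hout y hyJ)) (ell_bd hw (hv s hsA)) (abs_nonneg _)
                  (by positivity)
            _ = _ := by ring
      _ ≤ ∫ y, c * ((|Real.log (u s + y)| + |u s + y|) / (1 + |y|) ^ 4) :=
          setIntegral_le_integral (i1.const_mul c) (Eventually.of_forall fun y => by positivity)
      _ ≤ c * K₂ := by
          rw [integral_const_mul]
          exact mul_le_mul_of_nonneg_left i2 hc0
  have hfull : ∀ s ∈ A, ∫ y, κ y * (Real.log (u s ^ 2 + v s ^ 2) / 2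
      - Real.log ((u s + y) ^ 2 + v s ^ 2) / 2)
      = (∫ y in J, κ y * (Real.log (u s ^ 2 + v s ^ 2) / 2
        - Real.log ((u s + y) ^ 2 + v s ^ 2) / 2))
        + (Real.log (u s ^ 2 + v s ^ 2) / 2) * τ
        - ∫ y in Jᶜ, κ y * (Real.log ((u s + y) ^ 2 + v s ^ 2) / 2) := by
    intro s hsA
    rw [← integral_add_compl hJm (hs s hsA)]
    have e : ∫ y in Jᶜ, κ y * (Real.log (u s ^ 2 + v s ^ 2) / 2
        - Real.log ((u s + y) ^ 2 + v s ^ 2) / 2)
        = (Real.log (u s ^ 2 + v s ^ 2) / 2) * τ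
          - ∫ y in Jᶜ, κ y * (Real.log ((u s + y) ^ 2 + v s ^ 2) / 2) := by
      rw [hτ, ← integral_const_mul, ← integral_sub (hi.integrableOn.const_mul _)
        (hl s hsA).integrableOn]
      exact integral_congr_ae (Eventually.of_forall fun y => by simp only []; ring)
    rw [e]
    ring
  -- the integral of the remainder
  have hZJ : IntegrableOn (fun y => κ y * Z y) J := by
    have := (hsub (-(1 / 8)) (1 / 8) (by norm_num) (by linarith) hN1).1
    exact this
  have hRi : IntegrableOn (fun y => κ y * (Z 0 - Z y - ∑ s ∈ A, m s *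
      (Real.log (u s ^ 2 + v s ^ 2) / 2 - Real.log ((u s + y) ^ 2 + v s ^ 2) / 2))) J ∧
      ∫ y in J, κ y * (Z 0 - Z y - ∑ s ∈ A, m s *
      (Real.log (u s ^ 2 + v s ^ 2) / 2 - Real.log ((u s + y) ^ 2 + v s ^ 2) / 2))
      = Z 0 * (1 - τ) - (∫ y in J, κ y * Z y) - ∑ s ∈ A, m s * ∫ y in J, κ y *
      (Real.log (u s ^ 2 + v s ^ 2) / 2 - Real.log ((u s + y) ^ 2 + v s ^ 2) / 2) := by
    have e : (fun y => κ y * (Z 0 - Z y - ∑ s ∈ A, m s *
        (Real.log (u s ^ 2 + v s ^ 2) / 2 - Real.log ((u s + y) ^ 2 + v s ^ 2) / 2)))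
        = fun y => (Z 0 * κ y - κ y * Z y) - ∑ s ∈ A, m s * (κ y *
        (Real.log (u s ^ 2 + v s ^ 2) / 2 - Real.log ((u s + y) ^ 2 + v s ^ 2) / 2)) := by
      funext y
      rw [mul_sub, mul_sub, Finset.mul_sum]
      congr 1
      · ring
      · exact Finset.sum_congr rfl fun s _ => by ring
    have i1 : IntegrableOn (fun y => Z 0 * κ y) J := (hi.const_mul _).integrableOn
    have i2 : IntegrableOn (fun y => ∑ s ∈ A, m s * (κ y *
        (Real.log (u s ^ 2 + v s ^ 2) / 2 - Real.log ((u s + y) ^ 2 + v s ^ 2) / 2))) J :=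
      integrable_finsetSum _ fun s hsA => ((hs s hsA).const_mul _).integrableOn
    rw [e]
    refine ⟨(i1.sub hZJ).sub i2, ?_⟩
    have e1 := integral_sub (i1.sub hZJ) i2
    have e2 := integral_sub i1 hZJ
    have e3 : ∫ y in J, ∑ s ∈ A, m s * (κ y *
        (Real.log (u s ^ 2 + v s ^ 2) / 2 - Real.log ((u s + y) ^ 2 + v s ^ 2) / 2))
        = ∑ s ∈ A, m s * ∫ y in J, κ y *
        (Real.log (u s ^ 2 + v s ^ 2) / 2 - Real.log ((u s + y) ^ 2 + v s ^ 2) / 2) := by
      rw [integral_finsetSum _ fun s hsA => ((hs s hsA).const_mul _).integrableOn]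
      exact Finset.sum_congr rfl fun s _ => integral_const_mul _ _
    simp only [Pi.sub_apply] at e1 e2
    rw [e1, e2, e3, integral_const_mul]
    have : ∫ y in J, κ y = 1 - τ := by linarith
    rw [this]
  have hRb : |∫ y in J, κ y * (Z 0 - Z y - ∑ s ∈ A, m s *
      (Real.log (u s ^ 2 + v s ^ 2) / 2 - Real.log ((u s + y) ^ 2 + v s ^ 2) / 2))| ≤ E * M := by
    calc _ ≤ ∫ y in J, |κ y * (Z 0 - Z y - ∑ s ∈ A, m s *
          (Real.log (u s ^ 2 + v s ^ 2) / 2 - Real.log ((u s + y) ^ 2 + v s ^ 2) / 2))| :=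
          abs_integral_le_integral_abs
      _ ≤ ∫ y in J, E * (κ y * |y|) := by
          refine setIntegral_mono_on_ae hRi.1.abs (hM.const_mul E).integrableOn hJm ?_
          filter_upwards [hR] with y hy hyJ
          rw [abs_mul, abs_of_nonneg (h0 y)]
          calc _ ≤ κ y * (E * |y|) := mul_le_mul_of_nonneg_left (hy (hin y hyJ)) (h0 y)
            _ = _ := by ring
      _ ≤ ∫ y, E * (κ y * |y|) :=
          setIntegral_le_integral (hM.const_mul E)
            (Eventually.of_forall fun y => mul_nonneg hE (mul_nonneg (h0 y) (abs_nonneg y)))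
      _ ≤ E * M := by
          rw [integral_const_mul]
          exact mul_le_mul_of_nonneg_left hM' hE
  have hJi : ∫ y in (-(1 / 8) : ℝ)..(1 / 8), κ y * Z y = ∫ y in J, κ y * Z y := by
    rw [intervalIntegral.integral_of_le (by norm_num)]
  have hsumfull : ∑ s ∈ A, m s * ∫ y, κ y *
      (Real.log (u s ^ 2 + v s ^ 2) / 2 - Real.log ((u s + y) ^ 2 + v s ^ 2) / 2)
      = (∑ s ∈ A, m s * ∫ y in J, κ y *
      (Real.log (u s ^ 2 + v s ^ 2) / 2 - Real.log ((u s + y) ^ 2 + v s ^ 2) / 2))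
      + τ * (∑ s ∈ A, m s * (Real.log (u s ^ 2 + v s ^ 2) / 2))
      - ∑ s ∈ A, m s * ∫ y in Jᶜ, κ y * (Real.log ((u s + y) ^ 2 + v s ^ 2) / 2) := by
    rw [Finset.mul_sum, ← Finset.sum_add_distrib, ← Finset.sum_sub_distrib]
    refine Finset.sum_congr rfl fun s hsA => ?_
    rw [hfull s hsA]
    ring
  have hesum : |∑ s ∈ A, m s * ∫ y in Jᶜ, κ y * (Real.log ((u s + y) ^ 2 + v s ^ 2) / 2)|
      ≤ W * (c * K₂) := by
    have hK₂0 : 0 ≤ K₂ := le_trans (integral_nonneg fun y => by positivity)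
      (hK₂ 0 (by simp)).2
    calc _ ≤ ∑ s ∈ A, |m s * ∫ y in Jᶜ, κ y * (Real.log ((u s + y) ^ 2 + v s ^ 2) / 2)| :=
          Finset.abs_sum_le_sum_abs _ _
      _ ≤ ∑ s ∈ A, m s * (c * K₂) := by
          refine Finset.sum_le_sum fun s hsA => ?_
          rw [abs_mul, abs_of_nonneg (hm s hsA)]
          exact mul_le_mul_of_nonneg_left (he s hsA) (hm s hsA)
      _ = (∑ s ∈ A, m s) * (c * K₂) := (Finset.sum_mul _ _ _).symm
      _ ≤ W * (c * K₂) := mul_le_mul_of_nonneg_right hW (mul_nonneg hc0 hK₂0)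
  have hid : Z 0 - (∫ y in a..b, κ y * Z y) - ∑ s ∈ A, m s * ∫ y, κ y *
      (Real.log (u s ^ 2 + v s ^ 2) / 2 - Real.log ((u s + y) ^ 2 + v s ^ 2) / 2)
      = (∫ y in J, κ y * (Z 0 - Z y - ∑ s ∈ A, m s *
      (Real.log (u s ^ 2 + v s ^ 2) / 2 - Real.log ((u s + y) ^ 2 + v s ^ 2) / 2)))
      + τ * (Z 0 - ∑ s ∈ A, m s * (Real.log (u s ^ 2 + v s ^ 2) / 2))
      + (∑ s ∈ A, m s * ∫ y in Jᶜ, κ y * (Real.log ((u s + y) ^ 2 + v s ^ 2) / 2))
      - (∫ y in a..(-(1 / 8)), κ y * Z y) - ∫ y in (1 / 8)..b, κ y * Z y := by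
    rw [hRi.2, hsumfull, hsplit, hJi]
    ring
  rw [hid]
  have hτF : |τ * (Z 0 - ∑ s ∈ A, m s * (Real.log (u s ^ 2 + v s ^ 2) / 2))| ≤ c * K₃ * F := by
    rw [abs_mul, abs_of_nonneg hτ0]
    exact mul_le_mul hτc hF (abs_nonneg _) (hτ0.trans hτc)
  rw [abs_le] at hRb hτF hesum hA0 hB0 ⊢
  constructor
  · linarith [hRb.1, hτF.1, hesum.1, hA0.2, hB0.2]
  · linarith [hRb.2, hτF.2, hesum.2, hA0.1, hB0.1]

end Pool.Agent.Q149.UM
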