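import Pool.Agent.Q97.UM.Stm10
import Pool.Agent.H382P.LocExp

set_option autoImplicit false

/-!
Project UM5 (helper97), job LOC, part 1: the local factorisation of zeta without RH (helper149).
-/

namespace Pool.Agent.Q149.UM

open Pool.Agent.Q97.UM
open Complex Filter Metric Set

noncomputable section

open Classical in
/-- the zeros with `|γ - x| ≤ 1` -/
def AA (T x : ℝ) : Finset ℂ := (ZD T).filter (fun s => |s.im - x| ≤ 1)

theorem mem_ZD {T : ℝ} (hT : 16 ≤ T) {s : ℂ} : s ∈ ZD T ↔ s ∈ H370.zset riemannZeta (T / 16) (16 * T) := by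
  unfold ZD
  exact H370.mem_Zf H370.good_zeta (by linarith)

theorem mem_AA {T x : ℝ} (hT : 16 ≤ T) {s : ℂ} :
    s ∈ AA T x ↔ s ∈ H370.zset riemannZeta (T / 16) (16 * T) ∧ |s.im - x| ≤ 1 := by
  unfold AA
  rw [Finset.mem_filter, mem_ZD hT]

theorem count_near : ∃ C : ℝ, 0 < C ∧ ∀ T x : ℝ, 16 ≤ T → 4 ≤ x → x ≤ 16 * T →
    ∑ s ∈ AA T x, (mz s : ℝ) ≤ C * Real.log T := by
  obtain ⟨C0, hC0, hz⟩ := H370.zcount H370.good_zeta
  refine ⟨4 * C0, by positivity, fun T x hT hx hxT => ?_⟩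
  classical
  have h1 := hz x (by linarith)
  have h2 := hz (x - 1) (by linarith)
  have hf1 := H370.zset_finite H370.good_zeta (x - 1) (x + 1) (by linarith)
  have hf2 := H370.zset_finite H370.good_zeta (x - 1 - 1) (x - 1 + 1) (by linarith)
  have e1 : H370.NN riemannZeta (x - 1) (x + 1) = ∑ s ∈ hf1.toFinset, mz s := by
    unfold H370.NN
    exact finsum_mem_eq_finite_toFinset_sum _ hf1
  have e2 : H370.NN riemannZeta (x - 1 - 1) (x - 1 + 1) = ∑ s ∈ hf2.toFinset, mz s := by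
    unfold H370.NN
    exact finsum_mem_eq_finite_toFinset_sum _ hf2
  have e3 : ∑ s ∈ AA T x, mz s ≤ H370.NN riemannZeta (x - 1) (x + 1) +
      H370.NN riemannZeta (x - 1 - 1) (x - 1 + 1) := by
    rw [e1, e2]
    have hsub : AA T x ⊆ hf1.toFinset ∪ hf2.toFinset := by
      intro s hs
      rw [mem_AA hT] at hs
      obtain ⟨⟨a1, a2, a3, a4, a5⟩, h6⟩ := hs
      rw [abs_le] at h6
      rw [Finset.mem_union, Set.Finite.mem_toFinset, Set.Finite.mem_toFinset]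
      by_cases h7 : x - 1 < s.im
      · exact Or.inl ⟨a1, a2, h7, by linarith, a5⟩
      · exact Or.inr ⟨a1, a2, by linarith, by linarith, a5⟩
    refine (Finset.sum_le_sum_of_subset hsub).trans ?_
    have := Finset.sum_union_inter (s₁ := hf1.toFinset) (s₂ := hf2.toFinset) (f := fun s => mz s)
    omega
  have e4 : (∑ s ∈ AA T x, (mz s : ℝ)) ≤ (H370.NN riemannZeta (x - 1) (x + 1) : ℝ) +
      H370.NN riemannZeta (x - 1 - 1) (x - 1 + 1) := by
    exact_mod_cast e3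
  have h3 : Real.log (x - 1) ≤ Real.log x := Real.log_le_log (by linarith) (by linarith)
  have h5 : Real.log x ≤ 2 * Real.log T := by
    have h6 : Real.log x ≤ Real.log (T ^ 2) := Real.log_le_log (by linarith) (by nlinarith)
    rw [Real.log_pow] at h6
    exact_mod_cast h6
  have h4 : C0 * Real.log (x - 1) ≤ C0 * Real.log x := mul_le_mul_of_nonneg_left h3 hC0.le
  have h7 : C0 * Real.log x ≤ C0 * (2 * Real.log T) := mul_le_mul_of_nonneg_left h5 hC0.le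
  linarith

/-- a zero free function with bounded logarithmic derivative -/
theorem norm_growth {g : ℂ → ℂ} {c : ℂ} {r K : ℝ}
    (hg : ∀ z ∈ closedBall c r, g z ≠ 0 ∧ DifferentiableAt ℂ g z ∧ ‖logDeriv g z‖ ≤ K)
    {z w : ℂ} (hz : z ∈ closedBall c r) (hw : w ∈ closedBall c r) :
    ‖g w‖ ≤ ‖g z‖ * Real.exp (K * ‖w - z‖) := by
  have hin : ∀ x ∈ Icc (0 : ℝ) 1, z + (x : ℂ) * (w - z) ∈ closedBall c r := by
    intro x hx
    have h := (convex_closedBall c r) hz hw (a := 1 - x) (b := x) (by linarith [hx.2]) hx.1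
      (by ring)
    have e : (1 - x) • z + x • w = z + (x : ℂ) * (w - z) := by
      simp only [Complex.real_smul]
      push_cast
      ring
    rwa [e] at h
  have hder : ∀ x ∈ Icc (0 : ℝ) 1, HasDerivAt (fun x : ℝ => g (z + (x : ℂ) * (w - z)))
      (deriv g (z + (x : ℂ) * (w - z)) * (w - z)) x := by
    intro x hx
    have h1 := (hg _ (hin x hx)).2.1.hasDerivAt
    have h2 : HasDerivAt (fun x : ℝ => z + (x : ℂ) * (w - z)) (w - z) x := by
      have h3 : HasDerivAt (fun y : ℂ => z + y * (w - z)) (1 * (w - z)) (x : ℂ) :=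
        ((hasDerivAt_id (x : ℂ)).mul_const (w - z)).const_add z
      rw [one_mul] at h3
      exact h3.comp_ofReal
    exact h1.comp_of_eq x h2 rfl
  have key := norm_le_gronwallBound_of_norm_deriv_right_le
    (f := fun x : ℝ => g (z + (x : ℂ) * (w - z)))
    (f' := fun x : ℝ => deriv g (z + (x : ℂ) * (w - z)) * (w - z)) (δ := ‖g z‖)
    (K := K * ‖w - z‖) (ε := 0) (a := 0) (b := 1)
    (fun x hx => (hder x hx).continuousAt.continuousWithinAt)
    (fun x hx => (hder x ⟨hx.1, hx.2.le⟩).hasDerivWithinAt) (by simp) (by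
      intro x hx
      have hx' : x ∈ Icc (0 : ℝ) 1 := ⟨hx.1, hx.2.le⟩
      obtain ⟨h1, _, h3⟩ := hg _ (hin x hx')
      rw [logDeriv_apply, norm_div, div_le_iff₀ (norm_pos_iff.2 h1)] at h3
      rw [norm_mul, add_zero]
      calc _ ≤ (K * ‖g (z + (x : ℂ) * (w - z))‖) * ‖w - z‖ :=
            mul_le_mul_of_nonneg_right h3 (norm_nonneg _)
        _ = _ := by ring) 1 (by simp)
  rw [gronwallBound_ε0] at key
  simpa using key

theorem log_norm_lip {g : ℂ → ℂ} {c : ℂ} {r K : ℝ}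
    (hg : ∀ z ∈ closedBall c r, g z ≠ 0 ∧ DifferentiableAt ℂ g z ∧ ‖logDeriv g z‖ ≤ K)
    {z w : ℂ} (hz : z ∈ closedBall c r) (hw : w ∈ closedBall c r) :
    |Real.log ‖g w‖ - Real.log ‖g z‖| ≤ K * ‖w - z‖ := by
  have key : ∀ z w : ℂ, z ∈ closedBall c r → w ∈ closedBall c r →
      Real.log ‖g w‖ ≤ Real.log ‖g z‖ + K * ‖w - z‖ := by
    intro z w hz hw
    have h1 := norm_growth hg hz hw
    have hz0 : 0 < ‖g z‖ := norm_pos_iff.2 (hg z hz).1
    have hw0 : 0 < ‖g w‖ := norm_pos_iff.2 (hg w hw).1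
    have h2 := Real.log_le_log hw0 h1
    rwa [Real.log_mul hz0.ne' (Real.exp_pos _).ne', Real.log_exp] at h2
  have h1 := key z w hz hw
  have h2 := key w z hw hz
  rw [norm_sub_rev z w] at h2
  rw [abs_le]
  constructor <;> linarith

theorem log_Pf (s : Multiset ℂ) (z : ℂ) (h : ∀ ρ ∈ s, z ≠ ρ) :
    Real.log ‖H370.Loc.Pf s z‖ = ∑ ρ ∈ s.toFinset, (s.count ρ : ℝ) * Real.log ‖z - ρ‖ := by
  have h1 : H370.Loc.Pf s z = ∏ ρ ∈ s.toFinset, (z - ρ) ^ (s.count ρ) := by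
    unfold H370.Loc.Pf
    rw [Finset.prod_multiset_map_count]
  rw [h1, norm_prod, Real.log_prod]
  · apply Finset.sum_congr rfl
    intro ρ _
    rw [norm_pow, Real.log_pow]
  · intro ρ hρ
    rw [norm_pow]
    have : z - ρ ≠ 0 := sub_ne_zero.2 (h ρ (Multiset.mem_toFinset.1 hρ))
    exact pow_ne_zero _ (norm_ne_zero_iff.2 this)

/-- the local factorisation -/
theorem loc_data : ∃ D : ℝ, 0 < D ∧ ∀ T t : ℝ, 100 ≤ T → T / 10 ≤ t → t ≤ 11 * T →
    ∃ (g : ℂ → ℂ) (S : Finset ℂ),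
      (∀ ρ ∈ S, ρ ∈ ZD T ∧ ‖ρ - ⟨2, t⟩‖ ≤ 1.8) ∧ (∀ ρ ∈ ZD T, ‖ρ - ⟨2, t⟩‖ ≤ 1.8 → ρ ∈ S) ∧
      (∀ z ∈ closedBall (⟨2, t⟩ : ℂ) 1.6, g z ≠ 0 ∧ DifferentiableAt ℂ g z ∧
        ‖logDeriv g z‖ ≤ D * Real.log T) ∧
      (∀ z ∈ closedBall (⟨2, t⟩ : ℂ) 1.6, riemannZeta z ≠ 0 → Real.log ‖riemannZeta z‖ =
        Real.log ‖g z‖ + ∑ ρ ∈ S, (mz ρ : ℝ) * Real.log ‖z - ρ‖) ∧
      riemannZeta ⟨2, t⟩ ≠ 0 := by
  classical
  obtain ⟨K, hK, hdata⟩ := H370.Loc.ball_data H370.good_zeta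
  set q : ℝ := Real.log (1.9 / 1.8) with hq
  have hq0 : 0 < q := Real.log_pos (by norm_num)
  set ℓ : ℝ := Real.log (1.8 / (1.9 - 1.8)) with hℓ
  have hℓ0 : 0 < ℓ := Real.log_pos (by norm_num)
  set D1 : ℝ := 2 * (K + K / q * ℓ + 1) * 1.7 / (1.8 - 1.7) / (1.7 - 1.6) with hD1
  have hD10 : 0 < D1 := by
    have : (0 : ℝ) < 1.8 - 1.7 := by norm_num
    have : (0 : ℝ) < 1.7 - 1.6 := by norm_num
    positivity
  refine ⟨2 * D1, by positivity, fun T t hT ht1 ht2 => ?_⟩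
  have ht3 : 10 ≤ t := by linarith
  have hlt : 1 ≤ Real.log t := H370.Loc.one_le_log (by linarith)
  have hltT : Real.log t ≤ 2 * Real.log T := by
    have h6 : Real.log t ≤ Real.log (T ^ 2) := Real.log_le_log (by linarith) (by nlinarith)
    rw [Real.log_pow] at h6
    exact_mod_cast h6
  obtain ⟨M, hM1, han, hF0, hb, hMc, hL0, hLM⟩ := hdata t (by linarith)
  obtain ⟨s, g, hs, hg, hfg, hg0, hlg⟩ := SP.LocAux.extract_bound (f := riemannZeta)
    (c := ⟨2, t⟩) (r := 1.8) (r1 := 1.7) (r2 := 1.6) (R := 1.9) (M := M) (by norm_num)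
    (by norm_num) (by norm_num) (by norm_num) (by norm_num) hM1 hMc han hF0 hb
  have hlg' : ∀ z ∈ closedBall (⟨2, t⟩ : ℂ) 1.6, ‖logDeriv g z‖ ≤ 2 * D1 * Real.log T := by
    intro z hz
    have hD1t : ‖logDeriv g z‖ ≤ D1 * Real.log t := by
      refine (hlg z hz).trans ?_
      set X := Real.log (M / ‖riemannZeta ⟨2, t⟩‖) with hX
      have h1 : X / q * ℓ ≤ K * Real.log t / q * ℓ := by gcongr
      have h2 : X + X / q * ℓ + 1 ≤ (K + K / q * ℓ + 1) * Real.log t := by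
        have h3 : K * Real.log t / q * ℓ = K / q * ℓ * Real.log t := by ring
        rw [h3] at h1
        nlinarith
      have h4 : (0 : ℝ) < 1.8 - 1.7 := by norm_num
      have h5 : (0 : ℝ) < 1.7 - 1.6 := by norm_num
      calc _ ≤ 2 * ((K + K / q * ℓ + 1) * Real.log t) * 1.7 / (1.8 - 1.7) / (1.7 - 1.6) := by
            gcongr
        _ = D1 * Real.log t := by rw [hD1]; ring
    have := mul_le_mul_of_nonneg_left hltT hD10.le
    linarith
  have hsub1 : closedBall (⟨2, t⟩ : ℂ) 1.6 ⊆ closedBall (⟨2, t⟩ : ℂ) 1.8 :=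
    closedBall_subset_closedBall (by norm_num)
  have hsub2 : closedBall (⟨2, t⟩ : ℂ) 1.8 ⊆ closedBall (⟨2, t⟩ : ℂ) 1.9 :=
    closedBall_subset_closedBall (by norm_num)
  have hmem : ∀ ρ ∈ s, ρ ∈ ZD T ∧ ‖ρ - ⟨2, t⟩‖ ≤ 1.8 := by
    intro ρ hρ
    obtain ⟨h1, h2⟩ := hs ρ hρ
    rw [mem_closedBall, dist_eq_norm] at h1
    have h3 := (Complex.abs_re_le_norm (ρ - ⟨2, t⟩)).trans h1
    have h4 := (Complex.abs_im_le_norm (ρ - ⟨2, t⟩)).trans h1
    simp only [sub_re, sub_im] at h3 h4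
    rw [abs_le] at h3 h4
    have hre0 : 0 < ρ.re := by norm_num at h3 ⊢; linarith [h3.1]
    have him0 : t - 2 ≤ ρ.im := by norm_num at h4 ⊢; linarith [h4.1]
    have him1 : ρ.im ≤ t + 2 := by norm_num at h4 ⊢; linarith [h4.2]
    have hre1 : ρ.re < 1 := by
      by_contra hcon
      push Not at hcon
      exact H370.good_zeta.nzr ρ hcon (by linarith) h2
    refine ⟨(mem_ZD (by linarith)).2 ⟨hre0, hre1, by linarith, by linarith, h2⟩, h1⟩
  refine ⟨g, s.toFinset, fun ρ hρ => hmem ρ (Multiset.mem_toFinset.1 hρ), ?_, ?_, ?_, hF0⟩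
  · intro ρ hρ hball
    rw [mem_ZD (by linarith)] at hρ
    have hb' : ρ ∈ closedBall (⟨2, t⟩ : ℂ) 1.8 := by
      rw [mem_closedBall, dist_eq_norm]
      exact hball
    rw [Multiset.mem_toFinset]
    by_contra hns
    have h7 : H370.Loc.Pf s ρ ≠ 0 := H370.Loc.Pf_ne_zero fun x hx he => hns (he ▸ hx)
    have h8 := hfg ρ
    rw [hρ.2.2.2.2] at h8
    exact mul_ne_zero h7 (hg0 ρ hb') h8.symm
  · intro z hz
    exact ⟨hg0 z (hsub1 hz), (hg z (hsub2 (hsub1 hz))).differentiableAt, hlg' z hz⟩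
  · intro z hz hz0
    have hzρ : ∀ ρ ∈ s, z ≠ ρ := by
      intro ρ hρ he
      rw [he] at hz0
      exact hz0 (hs ρ hρ).2
    rw [hfg z, norm_mul, Real.log_mul (norm_ne_zero_iff.2 (H370.Loc.Pf_ne_zero hzρ))
      (norm_ne_zero_iff.2 (hg0 z (hsub1 hz))), log_Pf s z hzρ, add_comm]
    congr 1
    apply Finset.sum_congr rfl
    intro ρ hρ
    have hρ' := Multiset.mem_toFinset.1 hρ
    have hρb := (hs ρ hρ').1
    have h1 := hmem ρ hρ'
    have h2 := (mem_ZD (by linarith)).1 h1.1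
    have h3 : H370.mult riemannZeta ρ = s.count ρ :=
      SP.LocAux.count_eq_mult (H370.good_zeta.an ρ (by linarith [h2.2.2.1])) (hg ρ (hsub2 hρb))
        (hg0 ρ hρb) hfg
    rw [← h3]
    rfl

end

end Pool.Agent.Q149.UM
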