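import Pool.Agent.Q97.UM.Stm10
import Pool.Agent.Q149.UM.LOC1
import Pool.Agent.Q149.UM.DETQ1

set_option autoImplicit false

/-!
Project UM5 (helper97), job DETQ: the deterministic formula (helper149).
-/

namespace Pool.Agent.Q149.UM

open Pool.Agent.Q97.UM
open Complex Filter Metric Set MeasureTheory

noncomputable section

theorem log_norm_eq (x : ℝ) (s : ℂ) : Real.log ‖(1 / 2 + x * I : ℂ) - s‖
    = Real.log ((x - s.im) ^ 2 + (1 / 2 - s.re) ^ 2) / 2 := by
  have h1 : ‖(1 / 2 + x * I : ℂ) - s‖ ^ 2 = (x - s.im) ^ 2 + (1 / 2 - s.re) ^ 2 := by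
    rw [← Complex.normSq_eq_norm_sq, Complex.normSq_apply]
    simp
    ring
  rw [← h1, Real.log_pow]
  push_cast
  ring

theorem kap_facts {k₀ : ℝ → ℝ} {C : ℝ} (hc : Continuous k₀) (h0 : ∀ x, 0 ≤ k₀ x)
    (hi : Integrable k₀) (h1 : ∫ x, k₀ x = 1) (hC : 0 ≤ C)
    (hb : ∀ x, k₀ x ≤ C / (1 + |x|) ^ 4) {D : ℝ} (hD : 1 ≤ D) :
    Integrable (fun y => D * k₀ (D * y)) ∧ (∫ y, D * k₀ (D * y)) = 1 ∧
    (∀ y, 1 / 8 ≤ |y| → D * k₀ (D * y) ≤ (6561 * C / D) / (1 + |y|) ^ 4) ∧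
    Integrable (fun y => D * k₀ (D * y) * |y|) ∧
    ∫ y, D * k₀ (D * y) * |y| = (∫ z, k₀ z * |z|) / D := by
  have hD0 : 0 < D := by linarith
  have hh : Integrable (fun z => k₀ z * |z|) := by
    refine (int_pow3.const_mul C).mono' (by fun_prop) (Eventually.of_forall fun z => ?_)
    rw [Real.norm_eq_abs, abs_of_nonneg (mul_nonneg (h0 z) (abs_nonneg z))]
    have hz := abs_nonneg z
    calc k₀ z * |z| ≤ C / (1 + |z|) ^ 4 * (1 + |z|) := by
          apply mul_le_mul (hb z) (by linarith) hz (by positivity)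
      _ = C * (1 / (1 + |z|) ^ 3) := by
          field_simp
  have e1 : (fun y => D * k₀ (D * y) * |y|) = fun y => k₀ (D * y) * |D * y| := by
    funext y
    rw [abs_mul, abs_of_pos hD0]
    ring
  refine ⟨(hi.comp_mul_left' hD0.ne').const_mul D, ?_, ?_, ?_, ?_⟩
  · rw [integral_const_mul, Measure.integral_comp_mul_left, h1, abs_of_pos (inv_pos.2 hD0)]
    simp [hD0.ne']
  · intro y hy
    have h2 : D * (1 + |y|) / 9 ≤ 1 + |D * y| := by
      rw [abs_mul, abs_of_pos hD0]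
      have : D * (1 + |y|) ≤ 9 * (D * |y|) := by nlinarith
      linarith
    have h3 : (D * (1 + |y|) / 9) ^ 4 ≤ (1 + |D * y|) ^ 4 := pow_le_pow_left₀ (by positivity) h2 4
    calc D * k₀ (D * y) ≤ D * (C / (1 + |D * y|) ^ 4) := mul_le_mul_of_nonneg_left (hb _) hD0.le
      _ ≤ D * (C / (D * (1 + |y|) / 9) ^ 4) := by
          apply mul_le_mul_of_nonneg_left _ hD0.le
          exact div_le_div_of_nonneg_left hC (by positivity) h3
      _ = (6561 * C / (1 + |y|) ^ 4) * (1 / D ^ 3) := by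
          field_simp
          norm_num
      _ ≤ (6561 * C / (1 + |y|) ^ 4) * (1 / D) := by
          apply mul_le_mul_of_nonneg_left _ (by positivity)
          apply one_div_le_one_div_of_le hD0
          calc D = D ^ 1 := (pow_one D).symm
            _ ≤ D ^ 3 := pow_le_pow_right₀ hD (by norm_num)
      _ = _ := by
          field_simp
  · rw [e1]
    exact hh.comp_mul_left' hD0.ne'
  · rw [e1, Measure.integral_comp_mul_left (fun z => k₀ z * |z|), abs_of_pos (inv_pos.2 hD0),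
      smul_eq_mul]
    ring

/-- DETQ -/
theorem t_DETQ : J_DETQ := by
  intro hKB hVAV hLOC hKLG ψ₁ k₀ hK δ hδ hδ8
  classical
  obtain ⟨hev, hki, hk1, -, hdec⟩ := hKB ψ₁ k₀ hK
  obtain ⟨C4, hC4, hb4, -⟩ := hdec 4
  obtain ⟨CV, hCV, hV⟩ := hVAV ψ₁ k₀ hK δ hδ hδ8
  obtain ⟨CL, hCL, hL⟩ := hLOC
  obtain ⟨CG, hCG, hG⟩ := hKLG ψ₁ k₀ hK
  obtain ⟨K₂, hK₂0, hK₂⟩ := log_int
  have hM0 : 0 ≤ ∫ z, k₀ z * |z| :=
    integral_nonneg fun z => mul_nonneg (hK.nonneg z) (abs_nonneg z)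
  have hK₃0 : 0 ≤ ∫ y : ℝ, 1 / (1 + |y|) ^ 4 := integral_nonneg fun y => by positivity
  refine ⟨CV + (CL * (∫ z, k₀ z * |z|) / δ + 6561 * C4 * (∫ y : ℝ, 1 / (1 + |y|) ^ 4) * CL / δ
    + 6 * (6561 * C4) * CL / δ + CL * (6561 * C4 * K₂) / δ), by positivity, ?_⟩
  have hlog : ∀ᶠ T : ℝ in atTop, 1 / δ ≤ Real.log T :=
    Real.tendsto_log_atTop.eventually_ge_atTop _
  filter_upwards [hV, hL, hlog, eventually_ge_atTop (100 : ℝ)] with T hVT hLT hlT hT t ht1 ht2 hz
  have hTp : 0 < T := by linarith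
  have hLp : 0 < Real.log T := Real.log_pos (by linarith)
  have hD1 : 1 ≤ δ * Real.log T := by
    rw [div_le_iff₀ hδ] at hlT
    linarith
  have hD0 : 0 < δ * Real.log T := by linarith
  obtain ⟨D, hD⟩ : ∃ D : ℝ, D = δ * Real.log T := ⟨_, rfl⟩
  rw [← hD] at hD1 hD0
  obtain ⟨U1, U2, hU1, hU1', hU2, hU2', hPP⟩ := hVT t (by linarith) (by linarith)
  obtain ⟨a1, a2, a3, a4, a5⟩ := hLT t (by linarith) (by linarith)
  obtain ⟨q1, q2, q3, q4, q5⟩ := kap_facts hK.cont hK.nonneg hki hk1 hC4 hb4 hD1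
  have hmem : ∀ s ∈ (ZD T).filter (fun s => |s.im - t| ≤ 1), 0 < s.re ∧ s.re < 1 ∧
      |s.im - t| ≤ 1 ∧ riemannZeta s = 0 := by
    intro s hs
    rw [Finset.mem_filter, mem_ZD (by linarith)] at hs
    obtain ⟨⟨b1, b2, b3, b4, b5⟩, b6⟩ := hs
    exact ⟨b1, b2, b6, b5⟩
  have hcore := core (κ := fun y => D * k₀ (D * y)) (Z := fun y => Real.log ‖zt (t + y)‖)
    (c := 6561 * C4 / D) (M := (∫ z, k₀ z * |z|) / D) (B := CL * Real.log T)
    (E := CL * Real.log T) (F := CL * Real.log T) (W := CL * Real.log T) (a := U1 - t)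
    (b := U2 - t) (K₂ := K₂) (K₃ := ∫ y : ℝ, 1 / (1 + |y|) ^ 4) (N := ⌈T / 8 + 1⌉₊)
    (A := (ZD T).filter (fun s => |s.im - t| ≤ 1)) (m := fun s => (mz s : ℝ))
    (u := fun s => t - s.im) (v := fun s => 1 / 2 - s.re)
    (by have := hK.cont; fun_prop) (fun y => mul_nonneg hD0.le (hK.nonneg _)) q1 q2 q3 q4 q5.le
    (by linarith) (by linarith)
    (by have := Nat.le_ceil (T / 8 + 1); linarith) (by have := Nat.le_ceil (T / 8 + 1); linarith)
    ?_ ?_ (fun s _ => Nat.cast_nonneg _) a5 ?_ ?_ ?_ (by positivity) ?_ ?_ hK₂ le_rfl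
    (by positivity)
  · -- conclusion
    have e1 : (∫ u in U1..U2, δ * Real.log T * k₀ (δ * Real.log T * (u - t)) *
        Real.log ‖zt u‖) = ∫ y in (U1 - t)..(U2 - t), D * k₀ (D * y) * Real.log ‖zt (t + y)‖ := by
      rw [← intervalIntegral.integral_comp_sub_right
        (fun y => D * k₀ (D * y) * Real.log ‖zt (t + y)‖) t, hD]
      refine intervalIntegral.integral_congr fun u _ => ?_
      show _ = δ * Real.log T * k₀ (δ * Real.log T * (u - t)) * Real.log ‖zt (t + (u - t))‖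
      rw [add_sub_cancel]
    rw [e1] at hPP
    simp only [add_zero] at hcore
    have hSS : 0 ≤ SS δ T t := by
      unfold SS
      exact Finset.sum_nonneg fun s _ => by positivity
    have e2 : ∑ s ∈ (ZD T).filter (fun s => |s.im - t| ≤ 1), (mz s : ℝ) *
        GK k₀ (δ * Real.log T) (t - s.im) (1 / 2 - s.re)
        = ∑ s ∈ (ZD T).filter (fun s => |s.im - t| ≤ 1), (mz s : ℝ) * ∫ y, D * k₀ (D * y) *
          (Real.log ((t - s.im) ^ 2 + (1 / 2 - s.re) ^ 2) / 2 -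
            Real.log ((t - s.im + y) ^ 2 + (1 / 2 - s.re) ^ 2) / 2) := by
      rw [hD]
      rfl
    have e3 : CL * Real.log T * ((∫ z, k₀ z * |z|) / D) + 6561 * C4 / D *
        (∫ y : ℝ, 1 / (1 + |y|) ^ 4) * (CL * Real.log T) + 6 * (6561 * C4 / D) *
        (CL * Real.log T) + CL * Real.log T * (6561 * C4 / D * K₂)
        = CL * (∫ z, k₀ z * |z|) / δ + 6561 * C4 * (∫ y : ℝ, 1 / (1 + |y|) ^ 4) * CL / δ
          + 6 * (6561 * C4) * CL / δ + CL * (6561 * C4 * K₂) / δ := by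
      rw [hD]
      field_simp
    rw [e3, ← e2] at hcore
    have hpos : 0 ≤ CL * (∫ z, k₀ z * |z|) / δ + 6561 * C4 * (∫ y : ℝ, 1 / (1 + |y|) ^ 4) *
        CL / δ + 6 * (6561 * C4) * CL / δ + CL * (6561 * C4 * K₂) / δ := by positivity
    obtain ⟨Q, hQ⟩ : ∃ Q : ℝ, Q = CL * (∫ z, k₀ z * |z|) / δ + 6561 * C4 *
        (∫ y : ℝ, 1 / (1 + |y|) ^ 4) * CL / δ + 6 * (6561 * C4) * CL / δ +
        CL * (6561 * C4 * K₂) / δ := ⟨_, rfl⟩
    rw [← hQ] at hcore hpos ⊢
    have hQS : 0 ≤ Q * SS δ T t := mul_nonneg hpos hSS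
    rw [abs_le] at hcore hPP ⊢
    constructor
    · linarith [hcore.1, hPP.1]
    · linarith [hcore.2, hPP.2]
  · -- unit intervals
    intro n hn
    have hn1 : (n : ℝ) < T / 8 + 1 := Nat.lt_ceil.1 hn
    have hn0 : (0 : ℝ) ≤ n := n.cast_nonneg
    obtain ⟨-, -, c1, c2, -⟩ := hLT (t + n) (by linarith) (by linarith)
    constructor
    · have := c1.comp_add_left t
      have e : t + (n : ℝ) - t = n := by ring
      have e' : t + (n : ℝ) + 1 - t = n + 1 := by ring
      rwa [e, e'] at this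
    · show ∫ y in (n : ℝ)..(n + 1), |Real.log ‖zt (t + y)‖| ≤ _
      rw [intervalIntegral.integral_comp_add_left (fun v => |Real.log ‖zt v‖|) t]
      rw [← add_assoc]
      exact c2
  · intro n hn
    have hn1 : (n : ℝ) < T / 8 + 1 := Nat.lt_ceil.1 hn
    have hn0 : (0 : ℝ) ≤ n := n.cast_nonneg
    obtain ⟨-, -, c1, c2, -⟩ := hLT (t - (n + 1)) (by linarith) (by linarith)
    constructor
    · have := (c1.comp_sub_left t).symm
      have e : t - (t - ((n : ℝ) + 1) + 1) = n := by ring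
      have e' : t - (t - ((n : ℝ) + 1)) = n + 1 := by ring
      rw [e, e'] at this
      refine this.congr fun y _ => ?_
      show Real.log ‖zt (t - y)‖ = Real.log ‖zt (t + -y)‖
      rw [← sub_eq_add_neg]
    · show ∫ y in (n : ℝ)..(n + 1), |Real.log ‖zt (t + -y)‖| ≤ _
      simp only [← sub_eq_add_neg]
      rw [intervalIntegral.integral_comp_sub_left (fun v => |Real.log ‖zt v‖|) t]
      have e' : t - (n : ℝ) = t - ((n : ℝ) + 1) + 1 := by ring
      rw [e']
      exact c2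
  · intro s hs
    show |t - s.im| ≤ 1
    rw [abs_sub_comm]
    exact (hmem s hs).2.2.1
  · intro s hs
    obtain ⟨b1, b2, -, -⟩ := hmem s hs
    show |1 / 2 - s.re| ≤ 1 / 2
    rw [abs_le]
    constructor <;> linarith
  · intro s hs
    have hne : t - s.im ≠ 0 ∨ 1 / 2 - s.re ≠ 0 := by
      by_contra hcon
      push Not at hcon
      apply hz
      have hs0 := (hmem s hs).2.2.2
      unfold zt
      have e : (1 / 2 + t * I : ℂ) = s := by
        apply Complex.ext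
        · simp
          linarith [hcon.2]
        · simp
          linarith [hcon.1]
      rw [e]
      exact hs0
    exact (hG D (t - s.im) (1 / 2 - s.re) hD1 hne).1
  · -- the remainder
    have hfin : {y : ℝ | |y| ≤ 1 / 8 ∧ zt (t + y) = 0}.Finite := by
      refine ((ZD T).image (fun s => s.im - t)).finite_toSet.subset fun y hy => ?_
      obtain ⟨hy1, hy2⟩ := hy
      rw [abs_le] at hy1
      rw [Finset.mem_coe, Finset.mem_image]
      refine ⟨⟨1 / 2, t + y⟩, ?_, by simp⟩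
      rw [mem_ZD (by linarith)]
      refine ⟨by norm_num, by norm_num, ?_, ?_, ?_⟩
      · show T / 16 < t + y
        linarith [hy1.1]
      · show t + y ≤ 16 * T
        linarith [hy1.2]
      · have e : (⟨1 / 2, t + y⟩ : ℂ) = 1 / 2 + ((t + y : ℝ) : ℂ) * I := by
          apply Complex.ext <;> simp
        rw [e]
        exact hy2
    have hnull : ∀ᵐ y : ℝ, ¬ (|y| ≤ 1 / 8 ∧ zt (t + y) = 0) := by
      rw [ae_iff]
      simp only [not_not]
      exact hfin.measure_zero volume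
    filter_upwards [hnull] with y hy hy8
    have hzy : zt (t + y) ≠ 0 := fun h => hy ⟨hy8, h⟩
    have h := a2 y hy8 hz hzy
    have e : Real.log ‖zt (t + 0)‖ - Real.log ‖zt (t + y)‖ -
        ∑ s ∈ (ZD T).filter (fun s => |s.im - t| ≤ 1), (mz s : ℝ) *
          (Real.log ((t - s.im) ^ 2 + (1 / 2 - s.re) ^ 2) / 2 -
            Real.log ((t - s.im + y) ^ 2 + (1 / 2 - s.re) ^ 2) / 2)
        = -((Real.log ‖zt (t + y)‖ - Real.log ‖zt t‖) -
          ∑ s ∈ (ZD T).filter (fun s => |s.im - t| ≤ 1), (mz s : ℝ) *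
          (Real.log ‖(1 / 2 + (t + y : ℝ) * I : ℂ) - s‖ -
            Real.log ‖(1 / 2 + t * I : ℂ) - s‖)) := by
      rw [add_zero, neg_sub, sub_sub_eq_add_sub]
      have e4 : ∑ s ∈ (ZD T).filter (fun s => |s.im - t| ≤ 1), (mz s : ℝ) *
          (Real.log ((t - s.im) ^ 2 + (1 / 2 - s.re) ^ 2) / 2 -
            Real.log ((t - s.im + y) ^ 2 + (1 / 2 - s.re) ^ 2) / 2)
          = - ∑ s ∈ (ZD T).filter (fun s => |s.im - t| ≤ 1), (mz s : ℝ) *
          (Real.log ‖(1 / 2 + (t + y : ℝ) * I : ℂ) - s‖ -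
            Real.log ‖(1 / 2 + t * I : ℂ) - s‖) := by
        rw [← Finset.sum_neg_distrib]
        refine Finset.sum_congr rfl fun s _ => ?_
        rw [log_norm_eq, log_norm_eq]
        have : t + y - s.im = t - s.im + y := by ring
        rw [this]
        ring
      rw [e4]
      ring
    rw [e, abs_neg]
    exact h
  · have h := a1 hz
    simp only [add_zero]
    have e : ∑ s ∈ (ZD T).filter (fun s => |s.im - t| ≤ 1), (mz s : ℝ) *
        (Real.log ((t - s.im) ^ 2 + (1 / 2 - s.re) ^ 2) / 2)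
        = ∑ s ∈ (ZD T).filter (fun s => |s.im - t| ≤ 1), (mz s : ℝ) *
          Real.log ‖(1 / 2 + t * I : ℂ) - s‖ := by
      refine Finset.sum_congr rfl fun s _ => ?_
      rw [log_norm_eq]
    rw [e]
    exact h

end

end Pool.Agent.Q149.UM
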