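import Pool.Agent.Q97.UM.Stm10
import Pool.Agent.Q178.UM.PR

set_option autoImplicit false

/-!
Project UM5 (helper97), job EUL: the smoothed prime sum and the Euler product (helper149).
-/

namespace Pool.Agent.Q149.UM

open Pool.Agent.Q97.UM
open Complex

noncomputable section

/-- `n^{-1/2-it}` -/
def zp (n : ℕ) (t : ℝ) : ℂ := (n : ℂ) ^ (-(1 / 2 + t * I))

theorem norm_zp (n : ℕ) (t : ℝ) (hn : 0 < n) : ‖zp n t‖ = (n : ℝ) ^ (-(1 / 2) : ℝ) := by
  unfold zp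
  rw [Complex.norm_natCast_cpow_of_pos hn]
  congr 1
  simp

theorem zp_pow (p k : ℕ) (t : ℝ) : zp (p ^ k) t = zp p t ^ k := by
  unfold zp
  rw [Nat.cast_pow, ← Complex.natCast_cpow_natCast_mul, Complex.cpow_nat_mul]

theorem norm_zp_sq (n : ℕ) (t : ℝ) (hn : 0 < n) : ‖zp n t‖ ^ 2 = 1 / n := by
  rw [norm_zp n t hn, ← Real.rpow_natCast, ← Real.rpow_mul (Nat.cast_nonneg n)]
  norm_num
  rw [Real.rpow_neg_one]

theorem norm_zp_le (n : ℕ) (t : ℝ) (hn : 2 ≤ n) : ‖zp n t‖ ≤ 3 / 4 := by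
  have h1 := norm_zp_sq n t (by omega)
  have h2 : (1 : ℝ) / n ≤ 1 / 2 := by
    apply one_div_le_one_div_of_le (by norm_num)
    exact_mod_cast hn
  have h3 := norm_nonneg (zp n t)
  nlinarith

theorem norm_zp_cube (n : ℕ) (t : ℝ) (hn : 0 < n) : ‖zp n t‖ ^ 3 = (n : ℝ) ^ (-(3 / 2) : ℝ) := by
  rw [norm_zp n t hn, ← Real.rpow_natCast, ← Real.rpow_mul (Nat.cast_nonneg n)]
  norm_num

/-- the sum of `n^{-3/2}` -/
def Z3 : ℝ := ∑' n : ℕ, (n : ℝ) ^ (-(3 / 2) : ℝ)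

theorem Z3_nonneg : 0 ≤ Z3 := tsum_nonneg fun n => Real.rpow_nonneg (Nat.cast_nonneg n) _

theorem sum_le_Z3 (S : Finset ℕ) : ∑ n ∈ S, (n : ℝ) ^ (-(3 / 2) : ℝ) ≤ Z3 := by
  refine Summable.sum_le_tsum S (fun n _ => Real.rpow_nonneg (Nat.cast_nonneg n) _) ?_
  exact Real.summable_nat_rpow.2 (by norm_num)

theorem loc_factor (z : ℂ) (hz : ‖z‖ ≤ 3 / 4) :
    |(-Real.log ‖1 - z‖) - z.re - (z ^ 2).re / 2| ≤ 4 / 3 * ‖z‖ ^ 3 := by
  have h1 := Complex.norm_log_sub_logTaylor_le 2 (z := -z) (by rw [norm_neg]; linarith)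
  have h2 : logTaylor (2 + 1) (-z) = -z - z ^ 2 / 2 := by
    simp [logTaylor_succ, logTaylor_zero]
    ring
  rw [h2, norm_neg, ← sub_eq_add_neg] at h1
  have h3 := Complex.abs_re_le_norm (log (1 - z) - (-z - z ^ 2 / 2))
  have h4 : (log (1 - z) - (-z - z ^ 2 / 2)).re =
      -((-Real.log ‖1 - z‖) - z.re - (z ^ 2).re / 2) := by
    rw [Complex.sub_re, Complex.log_re, Complex.sub_re, Complex.neg_re]
    have : (z ^ 2 / 2).re = (z ^ 2).re / 2 := by
      rw [show (2 : ℂ) = ((2 : ℝ) : ℂ) by norm_num, Complex.div_ofReal_re]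
    rw [this]
    ring
  rw [h4, abs_neg] at h3
  refine h3.trans (h1.trans ?_)
  have h5 : (1 - ‖z‖)⁻¹ ≤ 4 := by
    rw [inv_le_comm₀ (by linarith) (by norm_num)]
    linarith
  have h6 : 0 ≤ ‖z‖ ^ 3 := by positivity
  have h7 : ‖z‖ ^ 3 * (1 - ‖z‖)⁻¹ ≤ ‖z‖ ^ 3 * 4 := mul_le_mul_of_nonneg_left h5 h6
  norm_num at h7 ⊢
  linarith

/-- primes up to `e^D` -/
def PD (D : ℝ) : Finset ℕ := (Finset.Icc 1 ⌊Real.exp D⌋₊).filter Nat.Prime

theorem mem_PD {D : ℝ} {p : ℕ} : p ∈ PD D ↔ p.Prime ∧ Real.log p ≤ D := by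
  unfold PD
  rw [Finset.mem_filter, Finset.mem_Icc]
  constructor
  · rintro ⟨⟨h1, h2⟩, h3⟩
    refine ⟨h3, ?_⟩
    have h4 := (Nat.le_floor_iff (Real.exp_pos D).le).1 h2
    have h5 : (0 : ℝ) < p := by exact_mod_cast h1
    rw [← Real.log_exp D]
    exact Real.log_le_log h5 h4
  · rintro ⟨h3, h4⟩
    have h5 : (0 : ℝ) < p := by exact_mod_cast h3.pos
    refine ⟨⟨h3.one_le, Nat.le_floor ?_⟩, h3⟩
    rw [← Real.exp_log h5]
    exact Real.exp_le_exp.2 h4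

theorem EP_approx (D t : ℝ) :
    |EP ⌊Real.exp D⌋₊ t - ∑ p ∈ PD D, ((zp p t).re + (zp p t ^ 2).re / 2)| ≤ 4 / 3 * Z3 := by
  have h1 : EP ⌊Real.exp D⌋₊ t = ∑ p ∈ PD D, (-Real.log ‖1 - zp p t‖) := by
    unfold EP PD zp
    rw [Finset.sum_neg_distrib]
  rw [h1, ← Finset.sum_sub_distrib]
  refine (Finset.abs_sum_le_sum_abs _ _).trans ?_
  refine le_trans ?_ (mul_le_mul_of_nonneg_left (sum_le_Z3 (PD D)) (by norm_num))
  rw [Finset.mul_sum]
  apply Finset.sum_le_sum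
  intro p hp
  have hp' := (mem_PD.1 hp).1
  have h2 := loc_factor (zp p t) (norm_zp_le p t hp'.two_le)
  rw [norm_zp_cube p t hp'.pos] at h2
  rw [show -Real.log ‖1 - zp p t‖ - ((zp p t).re + (zp p t ^ 2).re / 2) =
    (-Real.log ‖1 - zp p t‖) - (zp p t).re - (zp p t ^ 2).re / 2 by ring]
  exact h2

/-- the coefficient at a prime power -/
theorem coef_pow (ψ₁ : ℝ → ℝ) (D : ℝ) (p k : ℕ) (hp : p.Prime) (hk : k ≠ 0) :
    ArithmeticFunction.vonMangoldt (p ^ k) / Real.log ((p ^ k : ℕ) : ℝ) *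
      ψ₁ (Real.log ((p ^ k : ℕ) : ℝ) / D) = 1 / k * ψ₁ (k * Real.log p / D) := by
  have hlog : Real.log ((p ^ k : ℕ) : ℝ) = k * Real.log p := by
    rw [Nat.cast_pow, Real.log_pow]
  have hlp : Real.log p ≠ 0 := (Real.log_pos (by exact_mod_cast hp.one_lt)).ne'
  have hk' : (k : ℝ) ≠ 0 := by exact_mod_cast hk
  rw [hlog, ArithmeticFunction.vonMangoldt_apply_pow hk,
    ArithmeticFunction.vonMangoldt_apply_prime hp]
  congr 1
  field_simp

theorem PP_split (ψ₁ : ℝ → ℝ) (D t : ℝ) (hD : 2 ≤ D) (hb : ∀ u, |ψ₁ u| ≤ 1) :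
    |PP ψ₁ D t - ∑ p ∈ PD D, ψ₁ (Real.log p / D) * (zp p t).re -
      ∑ p ∈ PD (D / 2), ψ₁ (2 * Real.log p / D) * (zp p t ^ 2).re / 2| ≤ 4 * Z3 := by
  set f : ℕ → ℂ := fun n => ((ArithmeticFunction.vonMangoldt n / Real.log n *
    ψ₁ (Real.log n / D) : ℝ) : ℂ) * zp n t with hf
  have h1 : PP ψ₁ D t = (∑ n ∈ (Finset.Ioc 0 ⌊Real.exp D⌋₊).filter IsPrimePow, f n).re := by
    unfold PP
    congr 1
    symm
    have hsub : (Finset.Ioc 0 ⌊Real.exp D⌋₊).filter IsPrimePow ⊆ Finset.Icc 2 ⌊Real.exp D⌋₊ := by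
      intro n hn
      rw [Finset.mem_filter, Finset.mem_Ioc] at hn
      rw [Finset.mem_Icc]
      exact ⟨hn.2.two_le, hn.1.2⟩
    refine Finset.sum_subset hsub ?_
    intro n hn hn'
    rw [Finset.mem_filter, Finset.mem_Ioc] at hn'
    rw [Finset.mem_Icc] at hn
    have hnp : ¬ IsPrimePow n := fun h => hn' ⟨⟨by omega, hn.2⟩, h⟩
    have hL : ArithmeticFunction.vonMangoldt n = 0 := by
      rw [ArithmeticFunction.vonMangoldt_eq_zero_iff]
      exact hnp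
    simp only [hf, hL, zero_div, zero_mul, Complex.ofReal_zero]
  obtain ⟨N, hN, hN3⟩ : ∃ N : ℕ, ⌊Real.log (Real.exp D) / Real.log 2⌋₊ ≤ N ∧ 3 ≤ N :=
    ⟨⌊Real.log (Real.exp D) / Real.log 2⌋₊ + 3, by omega, by omega⟩
  have h2 := Chebyshev.sum_PrimePow_eq_sum_sum' f (Real.exp_pos D).le hN
  -- the sets
  have hset : ∀ k : ℕ, 1 ≤ k → (Finset.Ioc 0 ⌊Real.exp D ^ ((1 : ℝ) / k)⌋₊).filter Nat.Prime =
      PD (D / k) := by
    intro k hk
    unfold PD
    have : Real.exp D ^ ((1 : ℝ) / k) = Real.exp (D / k) := by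
      rw [← Real.exp_mul]
      congr 1
      ring
    rw [this]
    rfl
  have hfp : ∀ k : ℕ, 1 ≤ k → ∀ p : ℕ, p.Prime →
      f (p ^ k) = ((1 / k * ψ₁ (k * Real.log p / D) : ℝ) : ℂ) * zp p t ^ k := by
    intro k hk p hp
    simp only [hf]
    rw [coef_pow ψ₁ D p k hp (by omega), zp_pow]
  have h3 : ∑ n ∈ (Finset.Ioc 0 ⌊Real.exp D⌋₊).filter IsPrimePow, f n =
      ∑ k ∈ Finset.Icc 1 N, ∑ p ∈ PD (D / k),
        ((1 / k * ψ₁ (k * Real.log p / D) : ℝ) : ℂ) * zp p t ^ k := by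
    rw [h2]
    apply Finset.sum_congr rfl
    intro k hk
    rw [Finset.mem_Icc] at hk
    rw [hset k hk.1]
    apply Finset.sum_congr rfl
    intro p hp
    exact hfp k hk.1 p (mem_PD.1 hp).1
  set G : ℕ → ℂ := fun k => ∑ p ∈ PD (D / k),
        ((1 / k * ψ₁ (k * Real.log p / D) : ℝ) : ℂ) * zp p t ^ k with hG
  have h4 : ∑ k ∈ Finset.Icc 1 N, G k = G 1 + G 2 + ∑ k ∈ Finset.Icc 3 N, G k := by
    have e1 : Finset.Icc 1 N = insert 1 (insert 2 (Finset.Icc 3 N)) := by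
      ext k
      simp only [Finset.mem_Icc, Finset.mem_insert]
      omega
    rw [e1, Finset.sum_insert (by simp), Finset.sum_insert (by simp)]
    ring
  have hG1 : (G 1).re = ∑ p ∈ PD D, ψ₁ (Real.log p / D) * (zp p t).re := by
    simp only [hG, Nat.cast_one, div_one, one_mul, pow_one]
    rw [Complex.re_sum]
    apply Finset.sum_congr rfl
    intro p _
    rw [Complex.re_ofReal_mul]
  have hG2 : (G 2).re = ∑ p ∈ PD (D / 2), ψ₁ (2 * Real.log p / D) * (zp p t ^ 2).re / 2 := by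
    simp only [hG, Nat.cast_ofNat]
    rw [Complex.re_sum]
    apply Finset.sum_congr rfl
    intro p _
    rw [Complex.re_ofReal_mul]
    ring
  have hG3 : ‖∑ k ∈ Finset.Icc 3 N, G k‖ ≤ 4 * Z3 := by
    have e1 : ∀ k ∈ Finset.Icc 3 N, ‖G k‖ ≤ (3 / 4 : ℝ) ^ (k - 3) * Z3 := by
      intro k hk
      rw [Finset.mem_Icc] at hk
      refine (norm_sum_le _ _).trans ?_
      refine le_trans ?_ (mul_le_mul_of_nonneg_left (sum_le_Z3 (PD (D / k))) (by positivity))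
      rw [Finset.mul_sum]
      apply Finset.sum_le_sum
      intro p hp
      have hp' := (mem_PD.1 hp).1
      rw [norm_mul, norm_pow, Complex.norm_real, Real.norm_eq_abs, abs_mul]
      have c1 : |(1 : ℝ) / k| ≤ 1 := by
        rw [abs_of_nonneg (by positivity), div_le_one (by exact_mod_cast (by omega : 0 < k))]
        exact_mod_cast (by omega : 1 ≤ k)
      have c2 := hb (k * Real.log p / D)
      have c3 : |(1 : ℝ) / k| * |ψ₁ (k * Real.log p / D)| ≤ 1 :=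
        mul_le_one₀ c1 (abs_nonneg _) c2
      have c4 : ‖zp p t‖ ^ k = ‖zp p t‖ ^ (k - 3) * ‖zp p t‖ ^ 3 := by
        rw [← pow_add]
        congr 1
        omega
      rw [c4, norm_zp_cube p t hp'.pos]
      have c5 : ‖zp p t‖ ^ (k - 3) ≤ (3 / 4 : ℝ) ^ (k - 3) :=
        pow_le_pow_left₀ (norm_nonneg _) (norm_zp_le p t hp'.two_le) _
      have c6 : 0 ≤ (p : ℝ) ^ (-(3 / 2) : ℝ) := Real.rpow_nonneg (Nat.cast_nonneg p) _
      have c7 := mul_le_mul_of_nonneg_right c5 c6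
      have c8 : 0 ≤ ‖zp p t‖ ^ (k - 3) * (p : ℝ) ^ (-(3 / 2) : ℝ) := by positivity
      calc _ ≤ 1 * (‖zp p t‖ ^ (k - 3) * (p : ℝ) ^ (-(3 / 2) : ℝ)) :=
            mul_le_mul_of_nonneg_right c3 c8
        _ ≤ _ := by rw [one_mul]; exact c7
    refine (norm_sum_le _ _).trans ((Finset.sum_le_sum e1).trans ?_)
    rw [← Finset.sum_mul]
    refine mul_le_mul_of_nonneg_right ?_ Z3_nonneg
    have e2 : ∑ k ∈ Finset.Icc 3 N, (3 / 4 : ℝ) ^ (k - 3) =
        ∑ j ∈ Finset.range (N - 2), (3 / 4 : ℝ) ^ j := by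
      refine Finset.sum_bij' (fun k _ => k - 3) (fun j _ => j + 3) ?_ ?_ ?_ ?_ ?_
      · intro k hk
        rw [Finset.mem_Icc] at hk
        rw [Finset.mem_range]
        omega
      · intro j hj
        rw [Finset.mem_range] at hj
        rw [Finset.mem_Icc]
        omega
      · intro k hk
        rw [Finset.mem_Icc] at hk
        omega
      · intro j _
        omega
      · intro k _
        rfl
    rw [e2, geom_sum_eq (by norm_num)]
    have e3 : 0 ≤ (3 / 4 : ℝ) ^ (N - 2) := by positivity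
    rw [div_le_iff_of_neg (by norm_num)]
    linarith
  rw [h1, h3, h4, Complex.add_re, Complex.add_re, hG1, hG2]
  have h5 := Complex.abs_re_le_norm (∑ k ∈ Finset.Icc 3 N, G k)
  refine le_trans (le_of_eq ?_) (h5.trans hG3)
  congr 1
  ring

theorem dp_eq (ψ₁ : ℝ → ℝ) (D t : ℝ) :
    (dp ⌊Real.exp D⌋₊ (fun n => if n.Prime then ((1 - ψ₁ (Real.log n / D) : ℝ) : ℂ) else 0) t).re =
      ∑ p ∈ PD D, (1 - ψ₁ (Real.log p / D)) * (zp p t).re := by
  unfold dp PD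
  rw [Finset.sum_filter, Complex.re_sum]
  apply Finset.sum_congr rfl
  intro n _
  by_cases h : n.Prime
  · simp only [h, if_true]
    rw [Complex.re_ofReal_mul]
    rfl
  · simp only [h, if_false, zero_mul, Complex.zero_re]

theorem t_EUL : J_EUL := by
  intro hKB ψ₁ k₀ hK
  obtain ⟨-, -, -, ⟨C, hC0, hC⟩, -⟩ := hKB ψ₁ k₀ hK
  obtain ⟨B, hB1, hB⟩ := Pool.Agent.Q178.UM.PR.sum_upto
  refine ⟨4 / 3 * Z3 + 4 * Z3 + C * B + B, by have := Z3_nonneg; positivity, ?_⟩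
  intro D t hD
  have hDpos : 0 < D := by linarith
  have h1 := EP_approx D t
  have h2 := PP_split ψ₁ D t hD hK.bd
  rw [dp_eq]
  -- Mertens
  have hmert : ∑ p ∈ PD D, Real.log p / p ≤ B * D := by
    have := hB 1 D (PD D) one_pos hDpos (fun p hp => (mem_PD.1 hp).1)
    have e : (PD D).filter (fun p : ℕ => 1 * Real.log p ≤ D) = PD D := by
      rw [Finset.filter_eq_self]
      intro p hp
      rw [one_mul]
      exact (mem_PD.1 hp).2
    rw [e] at this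
    simpa only [one_mul] using this
  have hsub : PD (D / 2) ⊆ PD D := by
    intro p hp
    rw [mem_PD] at hp ⊢
    exact ⟨hp.1, by linarith [hp.2]⟩
  have hre : ∀ p ∈ PD D, |(zp p t ^ 2).re| ≤ 1 / p := by
    intro p hp
    have e1 := Complex.abs_re_le_norm (zp p t ^ 2)
    rw [norm_pow, norm_zp_sq p t (mem_PD.1 hp).1.pos] at e1
    exact e1
  have hlog0 : ∀ p ∈ PD D, 0 ≤ Real.log p / p := fun p _ =>
    div_nonneg (Real.log_natCast_nonneg p) (Nat.cast_nonneg p)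
  -- the squares
  have h3 : |∑ p ∈ PD (D / 2), (1 - ψ₁ (2 * Real.log p / D)) * (zp p t ^ 2).re / 2| ≤ C * B := by
    have e1 : ∀ p ∈ PD (D / 2), |(1 - ψ₁ (2 * Real.log p / D)) * (zp p t ^ 2).re / 2| ≤
        C / D * (Real.log p / p) := by
      intro p hp
      have q1 := hre p (hsub hp)
      have q2 := hC 0 (2 * Real.log p / D)
      rw [hK.one, zero_sub, abs_neg] at q2
      have q3 : 0 ≤ Real.log p := Real.log_natCast_nonneg p
      rw [abs_of_nonneg (by positivity : 0 ≤ 2 * Real.log p / D)] at q2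
      rw [abs_div, abs_mul, abs_of_pos (by norm_num : (0 : ℝ) < 2)]
      have q4 : |1 - ψ₁ (2 * Real.log p / D)| * |(zp p t ^ 2).re| ≤
          (C * (2 * Real.log p / D)) * (1 / p) :=
        mul_le_mul q2 q1 (abs_nonneg _) (by positivity)
      calc _ ≤ (C * (2 * Real.log p / D)) * (1 / p) / 2 := by linarith
        _ = C / D * (Real.log p / p) := by ring
    refine (Finset.abs_sum_le_sum_abs _ _).trans ((Finset.sum_le_sum e1).trans ?_)
    rw [← Finset.mul_sum]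
    have e2 : ∑ p ∈ PD (D / 2), Real.log p / p ≤ B * D :=
      (Finset.sum_le_sum_of_subset_of_nonneg hsub (fun p hp _ => hlog0 p hp)).trans hmert
    calc C / D * ∑ p ∈ PD (D / 2), Real.log p / p ≤ C / D * (B * D) :=
          mul_le_mul_of_nonneg_left e2 (by positivity)
      _ = C * B := by field_simp
  have h4 : |∑ p ∈ PD D \ PD (D / 2), (zp p t ^ 2).re / 2| ≤ B := by
    have e1 : ∀ p ∈ PD D \ PD (D / 2), |(zp p t ^ 2).re / 2| ≤ 1 / D * (Real.log p / p) := by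
      intro p hp
      rw [Finset.mem_sdiff] at hp
      have q1 := hre p hp.1
      have q2 : D / 2 < Real.log p := by
        by_contra hle
        exact hp.2 (mem_PD.2 ⟨(mem_PD.1 hp.1).1, not_lt.1 hle⟩)
      rw [abs_div, abs_of_pos (by norm_num : (0 : ℝ) < 2)]
      have q3 : (1 : ℝ) / 2 ≤ Real.log p / D := by
        rw [div_le_div_iff₀ (by norm_num) hDpos]
        linarith
      have hp0 : (0 : ℝ) < p := by exact_mod_cast (mem_PD.1 hp.1).1.pos
      calc |(zp p t ^ 2).re| / 2 ≤ (1 / p) / 2 := by linarith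
        _ = (1 / 2) * (1 / p) := by ring
        _ ≤ (Real.log p / D) * (1 / p) := mul_le_mul_of_nonneg_right q3 (by positivity)
        _ = 1 / D * (Real.log p / p) := by ring
    refine (Finset.abs_sum_le_sum_abs _ _).trans ((Finset.sum_le_sum e1).trans ?_)
    rw [← Finset.mul_sum]
    have e2 : ∑ p ∈ PD D \ PD (D / 2), Real.log p / p ≤ B * D :=
      (Finset.sum_le_sum_of_subset_of_nonneg Finset.sdiff_subset
        (fun p hp _ => hlog0 p hp)).trans hmert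
    calc 1 / D * ∑ p ∈ PD D \ PD (D / 2), Real.log p / p ≤ 1 / D * (B * D) :=
          mul_le_mul_of_nonneg_left e2 (by positivity)
      _ = B := by field_simp
  -- the algebra
  have hs1 : ∑ p ∈ PD D, ((zp p t).re + (zp p t ^ 2).re / 2) =
      ∑ p ∈ PD D, ψ₁ (Real.log p / D) * (zp p t).re +
        ∑ p ∈ PD D, (1 - ψ₁ (Real.log p / D)) * (zp p t).re +
        (∑ p ∈ PD D \ PD (D / 2), (zp p t ^ 2).re / 2 +
          (∑ p ∈ PD (D / 2), ψ₁ (2 * Real.log p / D) * (zp p t ^ 2).re / 2 +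
          ∑ p ∈ PD (D / 2), (1 - ψ₁ (2 * Real.log p / D)) * (zp p t ^ 2).re / 2)) := by
    have e0 : ∑ p ∈ PD D, ψ₁ (Real.log p / D) * (zp p t).re +
        ∑ p ∈ PD D, (1 - ψ₁ (Real.log p / D)) * (zp p t).re = ∑ p ∈ PD D, (zp p t).re := by
      rw [← Finset.sum_add_distrib]
      apply Finset.sum_congr rfl
      intro p _
      ring
    have e1 : ∑ p ∈ PD (D / 2), ψ₁ (2 * Real.log p / D) * (zp p t ^ 2).re / 2 +
        ∑ p ∈ PD (D / 2), (1 - ψ₁ (2 * Real.log p / D)) * (zp p t ^ 2).re / 2 =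
        ∑ p ∈ PD (D / 2), (zp p t ^ 2).re / 2 := by
      rw [← Finset.sum_add_distrib]
      apply Finset.sum_congr rfl
      intro p _
      ring
    rw [e0, e1, Finset.sum_sdiff hsub, Finset.sum_add_distrib]
  rw [hs1] at h1
  rw [abs_le] at h1 h2 h3 h4 ⊢
  constructor <;> linarith [h1.1, h1.2, h2.1, h2.2, h3.1, h3.2, h4.1, h4.2]

end

end Pool.Agent.Q149.UM
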