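import Pool.Agent.Q149.UM.LOC1

set_option autoImplicit false

/-!
Project UM5 (helper97), job LOC: local expansion of `log|zeta|` without RH (helper149).
-/

namespace Pool.Agent.Q149.UM

open Pool.Agent.Q97.UM
open Complex Filter Metric Set MeasureTheory

noncomputable section

theorem pt_mem (t x : ℝ) (h : |x - t| ≤ 1 / 8) : (1 / 2 + x * I : ℂ) ∈ closedBall (⟨2, t⟩ : ℂ) 1.6 := by
  rw [mem_closedBall, dist_eq_norm]
  apply abs_le_of_sq_le_sq' _ (by norm_num) |>.2
  rw [← Complex.normSq_eq_norm_sq, Complex.normSq_apply]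
  have h1 : ((1 / 2 + x * I : ℂ) - ⟨2, t⟩).re = -(3 / 2) := by simp; norm_num
  have h2 : ((1 / 2 + x * I : ℂ) - ⟨2, t⟩).im = x - t := by simp
  rw [h1, h2]
  rw [abs_le] at h
  nlinarith

theorem norm_sub_pt (x y : ℝ) : ‖(1 / 2 + x * I : ℂ) - (1 / 2 + y * I)‖ = |x - y| := by
  have : (1 / 2 + x * I : ℂ) - (1 / 2 + y * I) = ((x - y : ℝ) : ℂ) * I := by
    push_cast
    ring
  rw [this, norm_mul, Complex.norm_I, mul_one, Complex.norm_real, Real.norm_eq_abs]

/-- the exceptional zeros are far away -/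
theorem far_pt {T t x : ℝ} (hT : 100 ≤ T) (S : Finset ℂ)
    (hS1 : ∀ ρ ∈ S, ρ ∈ ZD T ∧ ‖ρ - ⟨2, t⟩‖ ≤ 1.8)
    (hS2 : ∀ ρ ∈ ZD T, ‖ρ - ⟨2, t⟩‖ ≤ 1.8 → ρ ∈ S) (hx : |x - t| ≤ 1 / 8) (ρ : ℂ)
    (hρ : (ρ ∈ S ∧ ρ ∉ AA T t) ∨ (ρ ∈ AA T t ∧ ρ ∉ S)) :
    1 / 10 ≤ ‖(1 / 2 + x * I : ℂ) - ρ‖ ∧ ‖(1 / 2 + x * I : ℂ) - ρ‖ ≤ 3 := by
  have hre : ((1 / 2 + x * I : ℂ) - ρ).re = 1 / 2 - ρ.re := by simp
  have him : ((1 / 2 + x * I : ℂ) - ρ).im = x - ρ.im := by simp
  have b1 := Complex.abs_re_le_norm ((1 / 2 + x * I : ℂ) - ρ)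
  have b2 := Complex.abs_im_le_norm ((1 / 2 + x * I : ℂ) - ρ)
  have b3 := Complex.norm_le_abs_re_add_abs_im ((1 / 2 + x * I : ℂ) - ρ)
  rw [hre] at b1 b3
  rw [him] at b2 b3
  have hx' := abs_le.1 hx
  rcases hρ with ⟨h1, h2⟩ | ⟨h1, h2⟩
  · obtain ⟨h3, h4⟩ := hS1 ρ h1
    have h3' := (mem_ZD (by linarith)).1 h3
    have h5 := (Complex.abs_im_le_norm (ρ - ⟨2, t⟩)).trans h4
    simp only [sub_im] at h5
    have h6 : 1 < |ρ.im - t| := by
      by_contra hcon
      exact h2 ((mem_AA (by linarith)).2 ⟨h3', not_lt.1 hcon⟩)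
    have h7 : 7 / 8 ≤ |x - ρ.im| := by
      have := abs_sub_abs_le_abs_sub (ρ.im - t) (x - t)
      have e : ρ.im - t - (x - t) = -(x - ρ.im) := by ring
      rw [e, abs_neg] at this
      linarith
    have h8 : |x - ρ.im| ≤ 2 := by
      have := abs_add_le (x - t) (t - ρ.im)
      have e : x - t + (t - ρ.im) = x - ρ.im := by ring
      rw [e, abs_sub_comm t ρ.im] at this
      norm_num at h5 ⊢
      linarith
    have h9 : |1 / 2 - ρ.re| ≤ 1 / 2 := by
      rw [abs_le]
      constructor <;> linarith [h3'.1, h3'.2.1]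
    constructor <;> linarith
  · have h3 := (mem_AA (by linarith)).1 h1
    obtain ⟨h3', h4⟩ := h3
    have h5 : 1.8 < ‖ρ - ⟨2, t⟩‖ := by
      by_contra hcon
      exact h2 (hS2 ρ ((mem_ZD (by linarith)).2 h3') (not_lt.1 hcon))
    have h8 : |x - ρ.im| ≤ 2 := by
      have := abs_add_le (x - t) (t - ρ.im)
      have e : x - t + (t - ρ.im) = x - ρ.im := by ring
      rw [e, abs_sub_comm t ρ.im] at this
      linarith
    have h9 : |1 / 2 - ρ.re| ≤ 1 / 2 := by
      rw [abs_le]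
      constructor <;> linarith [h3'.1, h3'.2.1]
    refine ⟨?_, by linarith⟩
    by_cases h6 : 4 / 5 < |ρ.im - t|
    · have := abs_sub_abs_le_abs_sub (ρ.im - t) (x - t)
      have e : ρ.im - t - (x - t) = -(x - ρ.im) := by ring
      rw [e, abs_neg] at this
      linarith
    · have h7 : (1.8 : ℝ) ^ 2 < ‖ρ - ⟨2, t⟩‖ ^ 2 := pow_lt_pow_left₀ h5 (by norm_num) (by norm_num)
      rw [← Complex.normSq_eq_norm_sq, Complex.normSq_apply] at h7
      simp only [sub_re, sub_im] at h7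
      have h10 : (ρ.im - t) * (ρ.im - t) ≤ (4 / 5) * (4 / 5) := by
        rw [← abs_mul_abs_self (ρ.im - t)]
        have := not_lt.1 h6
        exact mul_self_le_mul_self (abs_nonneg _) this
      have h11 : ρ.re < 2 / 5 := by
        by_contra hcon
        have := not_lt.1 hcon
        have h12 := h3'.2.1
        norm_num at h7
        nlinarith
      have h12 : 1 / 10 ≤ |1 / 2 - ρ.re| := by
        rw [abs_of_pos (by linarith)]
        linarith
      linarith

/-- number of the zeros in the disc -/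
theorem sum_S_le {T t C0 : ℝ} (hC : ∀ T x : ℝ, 16 ≤ T → 4 ≤ x → x ≤ 16 * T →
    ∑ s ∈ AA T x, (mz s : ℝ) ≤ C0 * Real.log T) (hT : 100 ≤ T) (ht1 : T / 10 ≤ t) (ht2 : t ≤ 11 * T)
    (S : Finset ℂ) (hS : ∀ ρ ∈ S, ρ ∈ ZD T ∧ |ρ.im - t| ≤ 2) :
    ∑ s ∈ S, (mz s : ℝ) ≤ 2 * C0 * Real.log T := by
  classical
  have hsub : S ⊆ AA T (t - 1) ∪ AA T (t + 1) := by
    intro s hs
    obtain ⟨h1, h2⟩ := hS s hs
    rw [mem_ZD (by linarith)] at h1
    rw [abs_le] at h2
    rw [Finset.mem_union, mem_AA (by linarith), mem_AA (by linarith)]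
    by_cases h3 : s.im ≤ t
    · exact Or.inl ⟨h1, abs_le.2 ⟨by linarith, by linarith⟩⟩
    · exact Or.inr ⟨h1, abs_le.2 ⟨by linarith, by linarith⟩⟩
  have h1 := hC T (t - 1) (by linarith) (by linarith) (by linarith)
  have h2 := hC T (t + 1) (by linarith) (by linarith) (by linarith)
  have h3 : ∑ s ∈ S, (mz s : ℝ) ≤ ∑ s ∈ AA T (t - 1) ∪ AA T (t + 1), (mz s : ℝ) :=
    Finset.sum_le_sum_of_subset_of_nonneg hsub (fun s _ _ => Nat.cast_nonneg _)
  have h4 := Finset.sum_union_inter (s₁ := AA T (t - 1)) (s₂ := AA T (t + 1))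
    (f := fun s => (mz s : ℝ))
  have h5 : 0 ≤ ∑ s ∈ AA T (t - 1) ∩ AA T (t + 1), (mz s : ℝ) :=
    Finset.sum_nonneg (fun s _ => Nat.cast_nonneg _)
  linarith

/-- comparison of the sums over the disc and over the strip -/
theorem diff_le {T t C0 b : ℝ} (hC : ∀ T x : ℝ, 16 ≤ T → 4 ≤ x → x ≤ 16 * T →
    ∑ s ∈ AA T x, (mz s : ℝ) ≤ C0 * Real.log T) (hT : 100 ≤ T) (ht1 : T / 10 ≤ t) (ht2 : t ≤ 11 * T)
    (S : Finset ℂ) (hS : ∀ ρ ∈ S, ρ ∈ ZD T ∧ |ρ.im - t| ≤ 2) (f : ℂ → ℝ) (hb : 0 ≤ b)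
    (hf : ∀ ρ, ((ρ ∈ S ∧ ρ ∉ AA T t) ∨ (ρ ∈ AA T t ∧ ρ ∉ S)) → |f ρ| ≤ b) :
    |∑ ρ ∈ S, (mz ρ : ℝ) * f ρ - ∑ ρ ∈ AA T t, (mz ρ : ℝ) * f ρ| ≤ b * (3 * C0 * Real.log T) := by
  classical
  rw [← Finset.sum_sdiff_sub_sum_sdiff]
  have h1 := sum_S_le hC hT ht1 ht2 S hS
  have h2 := hC T t (by linarith) (by linarith) (by linarith)
  have key : ∀ U V : Finset ℂ, (∀ ρ ∈ U \ V, |f ρ| ≤ b) →
      |∑ ρ ∈ U \ V, (mz ρ : ℝ) * f ρ| ≤ b * ∑ ρ ∈ U, (mz ρ : ℝ) := by
    intro U V hUV
    refine (Finset.abs_sum_le_sum_abs _ _).trans ?_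
    rw [Finset.mul_sum]
    have h3 : ∑ ρ ∈ U \ V, |(mz ρ : ℝ) * f ρ| ≤ ∑ ρ ∈ U \ V, b * (mz ρ : ℝ) := by
      apply Finset.sum_le_sum
      intro ρ hρ
      have h4 := hUV ρ hρ
      have h5 : (0 : ℝ) ≤ mz ρ := Nat.cast_nonneg _
      rw [abs_mul, abs_of_nonneg h5]
      nlinarith
    exact h3.trans (Finset.sum_le_sum_of_subset_of_nonneg Finset.sdiff_subset
      (fun ρ _ _ => by positivity))
  have k1 := key S (AA T t) (fun ρ hρ => hf ρ (Or.inl (Finset.mem_sdiff.1 hρ)))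
  have k2 := key (AA T t) S (fun ρ hρ => hf ρ (Or.inr (Finset.mem_sdiff.1 hρ)))
  refine (abs_sub _ _).trans ?_
  have m1 := mul_le_mul_of_nonneg_left h1 hb
  have m2 := mul_le_mul_of_nonneg_left h2 hb
  calc _ ≤ b * ∑ ρ ∈ S, (mz ρ : ℝ) + b * ∑ ρ ∈ AA T t, (mz ρ : ℝ) := add_le_add k1 k2
    _ ≤ _ := by linarith

theorem abs_log_le {x : ℝ} (h1 : 1 / 10 ≤ x) (h2 : x ≤ 3) : |Real.log x| ≤ 3 := by
  have hx : 0 < x := by linarith
  have e3 : x ≤ Real.exp 3 := by
    have := Real.add_one_le_exp (3 : ℝ)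
    linarith
  have e4 : Real.exp (-3) ≤ x := by
    rw [Real.exp_neg]
    have h3 : (10 : ℝ) ≤ Real.exp 3 := by
      have h4 : Real.exp 3 = Real.exp 1 ^ 3 := by
        rw [← Real.exp_nat_mul]
        norm_num
      have h5 : (2.7 : ℝ) ≤ Real.exp 1 := by
        have := Real.exp_one_gt_d9
        linarith
      rw [h4]
      have h6 : (2.7 : ℝ) ^ 3 ≤ Real.exp 1 ^ 3 := pow_le_pow_left₀ (by norm_num) h5 3
      norm_num at h6 ⊢
      linarith
    calc (Real.exp 3)⁻¹ ≤ (10 : ℝ)⁻¹ := inv_anti₀ (by norm_num) h3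
      _ ≤ x := by linarith
  rw [abs_le]
  constructor
  · rw [Real.le_log_iff_exp_le hx]
    exact e4
  · rw [Real.log_le_iff_le_exp hx]
    exact e3

theorem log_sub_le {a b d : ℝ} (ha : 1 / 10 ≤ a) (hb : 1 / 10 ≤ b) (h : |a - b| ≤ d) :
    |Real.log a - Real.log b| ≤ 10 * d := by
  have key : ∀ a b : ℝ, 1 / 10 ≤ a → 1 / 10 ≤ b → |a - b| ≤ d →
      Real.log a - Real.log b ≤ 10 * d := by
    intro a b ha hb h
    have ha0 : 0 < a := by linarith
    have hb0 : 0 < b := by linarith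
    rw [← Real.log_div ha0.ne' hb0.ne']
    have h1 := Real.log_le_sub_one_of_pos (x := a / b) (by positivity)
    have h2 : a / b - 1 = (a - b) / b := by field_simp
    rw [h2] at h1
    have hd : 0 ≤ d := (abs_nonneg _).trans h
    have h3 : (a - b) / b ≤ 10 * d := by
      rw [div_le_iff₀ hb0]
      have := (le_abs_self _).trans h
      nlinarith
    linarith
  rw [abs_le]
  have h1 := key a b ha hb h
  have h2 := key b a hb ha (by rw [abs_sub_comm]; exact h)
  constructor <;> linarith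

/-- parts (a) and (b) -/
theorem loc_ab : ∃ C : ℝ, 0 < C ∧ ∀ T t : ℝ, 100 ≤ T → T / 10 ≤ t → t ≤ 11 * T →
    (zt t ≠ 0 → |Real.log ‖zt t‖ - ∑ s ∈ AA T t, (mz s : ℝ) *
      Real.log ‖(1 / 2 + t * I : ℂ) - s‖| ≤ C * Real.log T) ∧
    (∀ x : ℝ, |x - t| ≤ 1 / 8 → zt t ≠ 0 → zt x ≠ 0 → |(Real.log ‖zt x‖ - Real.log ‖zt t‖) -
      ∑ s ∈ AA T t, (mz s : ℝ) * (Real.log ‖(1 / 2 + x * I : ℂ) - s‖ -
        Real.log ‖(1 / 2 + t * I : ℂ) - s‖)| ≤ C * Real.log T * |x - t|) := by
  obtain ⟨C0, hC0, hC⟩ := count_near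
  obtain ⟨D, hD, hdat⟩ := loc_data
  obtain ⟨c, hc, hlow⟩ := H370.good_zeta.lower
  obtain ⟨Cg, Ag, hCg, hAg, hgr⟩ := H370.good_zeta.growth
  set K1 : ℝ := |Real.log Cg| + 2 * Ag + |Real.log c| with hK1
  have hK10 : 0 ≤ K1 := by positivity
  refine ⟨K1 + 2 * C0 + 2 * D + 9 * C0 + 30 * C0 + D, by positivity, fun T t hT ht1 ht2 => ?_⟩
  have hL1 : 1 ≤ Real.log T := H370.Loc.one_le_log (by linarith)
  obtain ⟨g, S, hS1, hS2, hg, hfac, hζc⟩ := hdat T t hT ht1 ht2
  have hSim : ∀ ρ ∈ S, ρ ∈ ZD T ∧ |ρ.im - t| ≤ 2 := by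
    intro ρ hρ
    obtain ⟨h3, h4⟩ := hS1 ρ hρ
    have h5 := (Complex.abs_im_le_norm (ρ - ⟨2, t⟩)).trans h4
    simp only [sub_im] at h5
    refine ⟨h3, by norm_num at h5 ⊢; linarith⟩
  have hsumS := sum_S_le hC hT ht1 ht2 S hSim
  have hs0 := pt_mem t t (by simp)
  have hcc : (⟨2, t⟩ : ℂ) ∈ closedBall (⟨2, t⟩ : ℂ) 1.6 := mem_closedBall_self (by norm_num)
  have hltT : Real.log t ≤ 2 * Real.log T := by
    have h6 : Real.log t ≤ Real.log (T ^ 2) := Real.log_le_log (by linarith) (by nlinarith)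
    rw [Real.log_pow] at h6
    exact_mod_cast h6
  constructor
  · intro hz
    have hfac0 := hfac _ hs0 hz
    have hfacc := hfac _ hcc hζc
    have hlip := log_norm_lip hg hcc hs0
    have hdist : ‖(1 / 2 + t * I : ℂ) - ⟨2, t⟩‖ ≤ 2 := by
      have := hs0
      rw [mem_closedBall, dist_eq_norm] at this
      exact this.trans (by norm_num)
    have hlip' : |Real.log ‖g (1 / 2 + t * I)‖ - Real.log ‖g ⟨2, t⟩‖| ≤ 2 * D * Real.log T := by
      refine hlip.trans ?_
      have : 0 ≤ D * Real.log T := by positivity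
      nlinarith
    -- the value at the centre
    have hζ1 : |Real.log ‖riemannZeta ⟨2, t⟩‖| ≤ K1 * Real.log T := by
      have h1 := hlow t (by linarith)
      have h2 := hgr ⟨2, t⟩ (by norm_num) (by norm_num) (by simp only; linarith)
      have h3 : 0 < ‖riemannZeta ⟨2, t⟩‖ := hc.trans_le h1
      have h4 := Real.log_le_log hc h1
      have h5 := Real.log_le_log h3 h2
      simp only at h5
      rw [Real.log_mul hCg.ne' (Real.rpow_pos_of_pos (by linarith) _).ne',
        Real.log_rpow (by linarith)] at h5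
      have h6 := neg_abs_le (Real.log c)
      have h7 := le_abs_self (Real.log Cg)
      have h8 : Ag * Real.log t ≤ Ag * (2 * Real.log T) := mul_le_mul_of_nonneg_left hltT hAg.le
      have h9 : |Real.log Cg| ≤ |Real.log Cg| * Real.log T := by
        have := abs_nonneg (Real.log Cg)
        nlinarith
      have h10 : |Real.log c| ≤ |Real.log c| * Real.log T := by
        have := abs_nonneg (Real.log c)
        nlinarith
      have h11 : 0 ≤ Ag * Real.log T := by positivity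
      rw [hK1, abs_le]
      constructor
      · nlinarith [abs_nonneg (Real.log Cg), abs_nonneg (Real.log c)]
      · nlinarith [abs_nonneg (Real.log Cg), abs_nonneg (Real.log c)]
    have hsumc : |∑ ρ ∈ S, (mz ρ : ℝ) * Real.log ‖(⟨2, t⟩ : ℂ) - ρ‖| ≤ 2 * C0 * Real.log T := by
      refine (Finset.abs_sum_le_sum_abs _ _).trans (le_trans ?_ hsumS)
      apply Finset.sum_le_sum
      intro ρ hρ
      obtain ⟨h3, h4⟩ := hS1 ρ hρ
      have h3' := (mem_ZD (by linarith)).1 h3
      rw [norm_sub_rev] at h4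
      have h5 : 1 ≤ ‖(⟨2, t⟩ : ℂ) - ρ‖ := by
        refine le_trans ?_ (Complex.re_le_norm _)
        simp only [sub_re]
        linarith [h3'.2.1]
      have h6 : 0 ≤ Real.log ‖(⟨2, t⟩ : ℂ) - ρ‖ := Real.log_nonneg h5
      have h7 : Real.log ‖(⟨2, t⟩ : ℂ) - ρ‖ ≤ 1 := by
        have := Real.log_le_sub_one_of_pos (x := ‖(⟨2, t⟩ : ℂ) - ρ‖) (by linarith)
        norm_num at h4 ⊢
        linarith
      have h8 : (0 : ℝ) ≤ mz ρ := Nat.cast_nonneg _
      rw [abs_mul, abs_of_nonneg h8, abs_of_nonneg h6]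
      nlinarith
    have hgc : |Real.log ‖g ⟨2, t⟩‖| ≤ (K1 + 2 * C0) * Real.log T := by
      have : Real.log ‖g ⟨2, t⟩‖ = Real.log ‖riemannZeta ⟨2, t⟩‖ -
          ∑ ρ ∈ S, (mz ρ : ℝ) * Real.log ‖(⟨2, t⟩ : ℂ) - ρ‖ := by linarith
      rw [this]
      refine (abs_sub _ _).trans ?_
      linarith
    have hdiff := diff_le hC hT ht1 ht2 S hSim (fun ρ => Real.log ‖(1 / 2 + t * I : ℂ) - ρ‖)
      (by norm_num : (0 : ℝ) ≤ 3) (fun ρ hρ => by
        obtain ⟨q1, q2⟩ := far_pt hT S hS1 hS2 (x := t) (by simp) ρ hρ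
        exact abs_log_le q1 q2)
    have hzt : zt t = riemannZeta (1 / 2 + t * I) := rfl
    rw [hzt, hfac0]
    rw [abs_le] at hlip' hgc hdiff ⊢
    have hCL : 0 ≤ C0 * Real.log T := by positivity
    have hDL : 0 ≤ D * Real.log T := by positivity
    constructor
    · nlinarith [hlip'.1, hgc.1, hdiff.1]
    · nlinarith [hlip'.2, hgc.2, hdiff.2]
  · intro x hx hz hzx
    have hfac0 := hfac _ hs0 hz
    have hsx := pt_mem t x hx
    have hfacx := hfac _ hsx hzx
    have hlip := log_norm_lip hg hs0 hsx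
    rw [norm_sub_pt] at hlip
    have hdiff := diff_le hC hT ht1 ht2 S hSim (fun ρ => Real.log ‖(1 / 2 + x * I : ℂ) - ρ‖ -
      Real.log ‖(1 / 2 + t * I : ℂ) - ρ‖) (b := 10 * |x - t|) (by positivity) (fun ρ hρ => by
        obtain ⟨q1, q2⟩ := far_pt hT S hS1 hS2 (x := t) (by simp) ρ hρ
        obtain ⟨q3, q4⟩ := far_pt hT S hS1 hS2 hx ρ hρ
        refine log_sub_le q3 q1 ?_
        refine (abs_norm_sub_norm_le _ _).trans ?_
        rw [sub_sub_sub_cancel_right, norm_sub_pt])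
    have hztx : zt x = riemannZeta (1 / 2 + x * I) := rfl
    have hzt : zt t = riemannZeta (1 / 2 + t * I) := rfl
    rw [hzt, hztx, hfac0, hfacx]
    have e1 : ∑ ρ ∈ S, (mz ρ : ℝ) * (Real.log ‖(1 / 2 + x * I : ℂ) - ρ‖ -
        Real.log ‖(1 / 2 + t * I : ℂ) - ρ‖) =
        ∑ ρ ∈ S, (mz ρ : ℝ) * Real.log ‖(1 / 2 + x * I : ℂ) - ρ‖ -
        ∑ ρ ∈ S, (mz ρ : ℝ) * Real.log ‖(1 / 2 + t * I : ℂ) - ρ‖ := by
      rw [← Finset.sum_sub_distrib]
      apply Finset.sum_congr rfl
      intro ρ _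
      ring
    rw [e1] at hdiff
    have hCL : 0 ≤ C0 * Real.log T * |x - t| := by positivity
    have hDL : 0 ≤ D * Real.log T * |x - t| := by positivity
    have hKL : 0 ≤ K1 * Real.log T * |x - t| := by positivity
    rw [abs_le] at hlip hdiff ⊢
    constructor
    · nlinarith [hlip.1, hdiff.1]
    · nlinarith [hlip.2, hdiff.2]

theorem zt_cont : Continuous zt := by
  rw [continuous_iff_continuousAt]
  intro t
  unfold zt
  have h1 : ContinuousAt riemannZeta (1 / 2 + t * I) := by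
    apply (differentiableAt_riemannZeta _).continuousAt
    intro h
    have := congrArg Complex.re h
    simp at this
  have h2 : Continuous (fun t : ℝ => (1 / 2 + t * I : ℂ)) := by fun_prop
  exact ContinuousAt.comp (g := riemannZeta) (f := fun t : ℝ => (1 / 2 + t * I : ℂ)) h1
    h2.continuousAt

/-- integral of `|log|` over a unit interval -/
theorem int_log : ∃ K : ℝ, 0 ≤ K ∧ ∀ t γ : ℝ, |γ - t| ≤ 2 →
    IntervalIntegrable (fun v => |Real.log (v - γ)|) volume t (t + 1) ∧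
      ∫ v in t..(t + 1), |Real.log (v - γ)| ≤ K := by
  have hint : ∀ a b : ℝ, IntervalIntegrable (fun x => |Real.log x|) volume a b := fun a b =>
    intervalIntegral.intervalIntegrable_log'.abs
  refine ⟨∫ x in (-3 : ℝ)..3, |Real.log x|, ?_, ?_⟩
  · exact intervalIntegral.integral_nonneg (by norm_num) (fun x _ => abs_nonneg _)
  · intro t γ h
    rw [abs_le] at h
    constructor
    · have := (hint (t - γ) (t + 1 - γ)).comp_sub_right γ
      simpa using this
    · have e := intervalIntegral.integral_comp_sub_right (a := t) (b := t + 1)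
        (fun x => |Real.log x|) γ
      rw [e]
      apply intervalIntegral.integral_mono_interval (by linarith) (by linarith) (by linarith)
      · exact Filter.Eventually.of_forall (fun x => abs_nonneg _)
      · exact hint _ _

theorem t_LOC : S_LOC := by
  obtain ⟨C0, hC0, hC⟩ := count_near
  obtain ⟨C1, hC1, hab⟩ := loc_ab
  obtain ⟨K, hK0, hK⟩ := int_log
  refine ⟨C0 + C1 + 2 * C0 * (K + 1), by positivity, ?_⟩
  filter_upwards [eventually_ge_atTop (100 : ℝ)] with T hT t ht1 ht2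
  have hL1 : 1 ≤ Real.log T := H370.Loc.one_le_log (by linarith)
  have hL0 : 0 ≤ Real.log T := by linarith
  obtain ⟨ha, hb⟩ := hab T t hT (by linarith) (by linarith)
  have hp1 : 0 ≤ C0 * Real.log T := by positivity
  have hp2 : 0 ≤ C1 * Real.log T := by positivity
  have hp3 : 0 ≤ 2 * C0 * (K + 1) * Real.log T := by positivity
  -- the dominating function
  have hdom : ∀ v ∈ Set.Icc t (t + 1), v ∉ (ZD T).image Complex.im → |Real.log ‖zt v‖| ≤
      C1 * Real.log T +
      (∑ s ∈ AA T t, (mz s : ℝ) * (|Real.log (v - s.im)| + 1) +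
        ∑ s ∈ AA T (t + 1), (mz s : ℝ) * (|Real.log (v - s.im)| + 1)) := by
    intro v hv hvF
    by_cases hz : zt v = 0
    · rw [hz, norm_zero, Real.log_zero, abs_zero]
      positivity
    · obtain ⟨ha', _⟩ := hab T v hT (by linarith [hv.1]) (by linarith [hv.2])
      have h1 := ha' hz
      have h2 : |∑ s ∈ AA T v, (mz s : ℝ) * Real.log ‖(1 / 2 + v * I : ℂ) - s‖| ≤
          ∑ s ∈ AA T v, (mz s : ℝ) * (|Real.log (v - s.im)| + 1) := by
        refine (Finset.abs_sum_le_sum_abs _ _).trans ?_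
        apply Finset.sum_le_sum
        intro s hs
        obtain ⟨h3, h4⟩ := (mem_AA (by linarith)).1 hs
        rw [abs_mul, abs_of_nonneg (Nat.cast_nonneg _ : (0 : ℝ) ≤ mz s)]
        refine mul_le_mul_of_nonneg_left ?_ (Nat.cast_nonneg _)
        have hre : ((1 / 2 + v * I : ℂ) - s).re = 1 / 2 - s.re := by simp
        have him : ((1 / 2 + v * I : ℂ) - s).im = v - s.im := by simp
        have b2 := Complex.abs_im_le_norm ((1 / 2 + v * I : ℂ) - s)
        have b3 := Complex.norm_le_abs_re_add_abs_im ((1 / 2 + v * I : ℂ) - s)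
        rw [hre, him] at b3
        rw [him] at b2
        have h5 : |1 / 2 - s.re| ≤ 1 / 2 := by
          rw [abs_le]
          constructor <;> linarith [h3.1, h3.2.1]
        rw [abs_sub_comm] at h4
        have h9 : v - s.im ≠ 0 := by
          intro h9
          apply hvF
          rw [Finset.mem_image]
          exact ⟨s, (mem_ZD (by linarith)).2 h3, by linarith⟩
        have h10 : 0 < |v - s.im| := abs_pos.2 h9
        have h8 : 0 < ‖(1 / 2 + v * I : ℂ) - s‖ := h10.trans_le b2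
        rw [abs_le]
        constructor
        · have h11 := Real.log_le_log h10 b2
          rw [Real.log_abs] at h11
          have := neg_abs_le (Real.log (v - s.im))
          linarith
        · have h12 := Real.log_le_sub_one_of_pos h8
          have := abs_nonneg (Real.log (v - s.im))
          linarith
      have hsub : AA T v ⊆ AA T t ∪ AA T (t + 1) := by
        intro s hs
        obtain ⟨h3, h4⟩ := (mem_AA (by linarith)).1 hs
        rw [abs_le] at h4
        rw [Finset.mem_union, mem_AA (by linarith), mem_AA (by linarith)]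
        by_cases h5 : s.im ≤ t + 1 / 2
        · exact Or.inl ⟨h3, abs_le.2 ⟨by linarith [hv.1], by linarith⟩⟩
        · exact Or.inr ⟨h3, abs_le.2 ⟨by linarith, by linarith [hv.2]⟩⟩
      have h3 : ∑ s ∈ AA T v, (mz s : ℝ) * (|Real.log (v - s.im)| + 1) ≤
          ∑ s ∈ AA T t, (mz s : ℝ) * (|Real.log (v - s.im)| + 1) +
          ∑ s ∈ AA T (t + 1), (mz s : ℝ) * (|Real.log (v - s.im)| + 1) := by
        refine (Finset.sum_le_sum_of_subset_of_nonneg hsub (fun s _ _ => by positivity)).trans ?_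
        have h4 := Finset.sum_union_inter (s₁ := AA T t) (s₂ := AA T (t + 1))
          (f := fun s => (mz s : ℝ) * (|Real.log (v - s.im)| + 1))
        have h5 : 0 ≤ ∑ s ∈ AA T t ∩ AA T (t + 1), (mz s : ℝ) * (|Real.log (v - s.im)| + 1) :=
          Finset.sum_nonneg (fun s _ => by positivity)
        linarith
      have h4 := abs_sub_abs_le_abs_sub (Real.log ‖zt v‖)
        (∑ s ∈ AA T v, (mz s : ℝ) * Real.log ‖(1 / 2 + v * I : ℂ) - s‖)
      linarith
  have hae : ∀ᵐ v : ℝ, v ∉ (ZD T).image Complex.im := by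
    have : volume (((ZD T).image Complex.im : Finset ℝ) : Set ℝ) = 0 :=
      ((ZD T).image Complex.im).finite_toSet.measure_zero volume
    exact measure_eq_zero_iff_ae_notMem.1 this
  have hone : ∀ x : ℝ, (x = t ∨ x = t + 1) → (∀ s ∈ AA T x, |s.im - t| ≤ 2) := by
    intro x hx s hs
    have h4 := ((mem_AA (by linarith)).1 hs).2
    rw [abs_le] at h4 ⊢
    rcases hx with rfl | rfl
    · constructor <;> linarith [h4.1, h4.2]
    · constructor <;> linarith [h4.1, h4.2]
  have hterm : ∀ x : ℝ, (x = t ∨ x = t + 1) →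
      IntervalIntegrable (fun v => ∑ s ∈ AA T x, (mz s : ℝ) * (|Real.log (v - s.im)| + 1))
        volume t (t + 1) ∧
      ∫ v in t..(t + 1), ∑ s ∈ AA T x, (mz s : ℝ) * (|Real.log (v - s.im)| + 1) ≤
        C0 * (K + 1) * Real.log T := by
    intro x hx
    have h1 : ∀ s ∈ AA T x, IntervalIntegrable (fun v => (mz s : ℝ) * (|Real.log (v - s.im)| + 1))
        volume t (t + 1) := by
      intro s hs
      exact ((hK t s.im (hone x hx s hs)).1.add (intervalIntegrable_const)).const_mul _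
    have h2 : IntervalIntegrable (fun v => ∑ s ∈ AA T x, (mz s : ℝ) *
        (|Real.log (v - s.im)| + 1)) volume t (t + 1) := by
      have := IntervalIntegrable.sum (AA T x) h1
      refine this.congr (fun v _ => ?_)
      simp
    refine ⟨h2, ?_⟩
    rw [intervalIntegral.integral_finsetSum h1]
    have h3 : ∀ s ∈ AA T x, ∫ v in t..(t + 1), (mz s : ℝ) * (|Real.log (v - s.im)| + 1) ≤
        (mz s : ℝ) * (K + 1) := by
      intro s hs
      obtain ⟨q1, q2⟩ := hK t s.im (hone x hx s hs)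
      rw [intervalIntegral.integral_const_mul, intervalIntegral.integral_add q1
        intervalIntegrable_const]
      refine mul_le_mul_of_nonneg_left ?_ (Nat.cast_nonneg _)
      simp
      linarith
    refine (Finset.sum_le_sum h3).trans ?_
    rw [← Finset.sum_mul]
    have hx4 : 4 ≤ x ∧ x ≤ 16 * T := by
      rcases hx with rfl | rfl <;> constructor <;> linarith
    have h4 := hC T x (by linarith) hx4.1 hx4.2
    have := mul_le_mul_of_nonneg_right h4 (by positivity : 0 ≤ K + 1)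
    linarith
  obtain ⟨i1, j1⟩ := hterm t (Or.inl rfl)
  obtain ⟨i2, j2⟩ := hterm (t + 1) (Or.inr rfl)
  have hB : IntervalIntegrable (fun v => C1 * Real.log T +
      (∑ s ∈ AA T t, (mz s : ℝ) * (|Real.log (v - s.im)| + 1) +
        ∑ s ∈ AA T (t + 1), (mz s : ℝ) * (|Real.log (v - s.im)| + 1))) volume t (t + 1) :=
    intervalIntegrable_const.add (i1.add i2)
  have hmeas : Measurable (fun v => Real.log ‖zt v‖) :=
    Real.measurable_log.comp zt_cont.norm.measurable
  have hint : IntervalIntegrable (fun v => Real.log ‖zt v‖) volume t (t + 1) := by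
    refine hB.mono_fun' hmeas.aestronglyMeasurable ?_
    rw [Set.uIoc_of_le (by linarith)]
    refine (ae_restrict_iff' measurableSet_Ioc).2 ?_
    filter_upwards [hae] with v hv hvI
    rw [Real.norm_eq_abs]
    exact hdom v ⟨hvI.1.le, hvI.2⟩ hv
  refine ⟨?_, ?_, hint, ?_, ?_⟩
  · intro hz
    refine (ha hz).trans ?_
    have : (C0 + C1 + 2 * C0 * (K + 1)) * Real.log T = C0 * Real.log T + C1 * Real.log T +
      2 * C0 * (K + 1) * Real.log T := by ring
    linarith
  · intro y hy hz hzy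
    have h1 := hb (t + y) (by simpa using hy) hz hzy
    have e : t + y - t = y := by ring
    rw [e] at h1
    refine h1.trans ?_
    refine mul_le_mul_of_nonneg_right ?_ (abs_nonneg _)
    have : (C0 + C1 + 2 * C0 * (K + 1)) * Real.log T = C0 * Real.log T + C1 * Real.log T +
      2 * C0 * (K + 1) * Real.log T := by ring
    linarith
  · have h1 : ∫ v in t..(t + 1), |Real.log ‖zt v‖| ≤ ∫ v in t..(t + 1), (C1 * Real.log T +
      (∑ s ∈ AA T t, (mz s : ℝ) * (|Real.log (v - s.im)| + 1) +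
        ∑ s ∈ AA T (t + 1), (mz s : ℝ) * (|Real.log (v - s.im)| + 1))) := by
      refine intervalIntegral.integral_mono_ae_restrict (by linarith) hint.abs hB ?_
      refine (ae_restrict_iff' measurableSet_Icc).2 ?_
      filter_upwards [hae] with v hv hvI
      exact hdom v hvI hv
    refine h1.trans ?_
    rw [intervalIntegral.integral_add intervalIntegrable_const (i1.add i2),
      intervalIntegral.integral_add i1 i2, intervalIntegral.integral_const]
    have e : t + 1 - t = 1 := by ring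
    rw [e, one_smul]
    have : (C0 + C1 + 2 * C0 * (K + 1)) * Real.log T = C0 * Real.log T + C1 * Real.log T +
      2 * (C0 * (K + 1) * Real.log T) := by ring
    linarith
  · refine (hC T t (by linarith) (by linarith) (by linarith)).trans ?_
    have : (C0 + C1 + 2 * C0 * (K + 1)) * Real.log T = C0 * Real.log T + C1 * Real.log T +
      2 * C0 * (K + 1) * Real.log T := by ring
    linarith

end

end Pool.Agent.Q149.UM
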